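import Mathlib

set_option autoImplicit false

namespace Pool.Agent.MP_5139aa_an.Cl

/-- `(X, T)` is Hilbert representable: there are a complex Hilbert space `H`, a unitary `U` and an
injective, weakly continuous map `f : X → H` with `f (T x) = U (f x)`. -/
def HilbRep {X : Type} [TopologicalSpace X] (T : X ≃ₜ X) : Prop :=
  ∃ (H : Type) (_ : NormedAddCommGroup H) (_ : InnerProductSpace ℂ H) (_ : CompleteSpace H)
    (U : H ≃ₗᵢ[ℂ] H) (f : X → H),
    Function.Injective f ∧ (∀ x, f (T x) = U (f x)) ∧
    ∀ v : H, Continuous (fun x => inner ℂ v (f x))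

/-- the enveloping (Ellis) semigroup: the closure of the powers `T ^ n`, `n : ℤ`, in the space of
all maps `X → X` with the topology of pointwise convergence -/
def Ellis {X : Type} [TopologicalSpace X] (T : X ≃ₜ X) : Set (X → X) :=
  closure (Set.range fun n : ℤ => ⇑(T ^ n))

/-- the idempotents of the enveloping semigroup -/
def Idem {X : Type} [TopologicalSpace X] (T : X ≃ₜ X) : Set (X → X) :=
  {e | e ∈ Ellis T ∧ e ∘ e = e}

end Pool.Agent.MP_5139aa_an.Cl
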