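import Mathlib
import Pool.Agent.MP_5139aa_an.Cl.Defs

set_option autoImplicit false
set_option linter.unusedSectionVars false

namespace Pool.Agent.MP_5139aa_an.Cl

open Filter Topology
open scoped InnerProductSpace ComplexOrder ComplexConjugate

variable {S : Type} [CommMonoid S] [StarMul S] [MetricSpace S] [CompactSpace S]
variable {H : Type} [NormedAddCommGroup H] [InnerProductSpace ℂ H] [CompleteSpace H]

/-- a compact commutative semitopological monoid with continuous involution, topologically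
generated by the unitary `u` and its inverse -/
structure Ctx (u : S) : Prop where
  unit : star u * u = 1
  ind : ∀ C : Set S, IsClosed C → 1 ∈ C → (∀ s ∈ C, u * s ∈ C) → (∀ s ∈ C, star u * s ∈ C) →
    ∀ s, s ∈ C
  cmul : ∀ a : S, Continuous fun s => a * s
  cstar : Continuous (star : S → S)

/-- weakly continuous star representation by contractions -/
structure IsRep (σ : S → H →L[ℂ] H) : Prop where
  one : ∀ v, σ 1 v = v
  mul : ∀ s t v, σ (s * t) v = σ s (σ t v)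
  adj : ∀ s v w, ⟪σ s v, w⟫_ℂ = ⟪v, σ (star s) w⟫_ℂ
  cont : ∀ v w, Continuous fun s => ⟪v, σ s w⟫_ℂ
  contr : ∀ s v, ‖σ s v‖ ≤ ‖v‖

/-- positive definite real function -/
def PD (φ : S → ℝ) : Prop :=
  (Matrix.of fun s t : S => ((φ (star s * t) : ℝ) : ℂ)).PosSemidef

/-- small semilattices -/
def Law (S : Type) [CommMonoid S] [MetricSpace S] : Prop :=
  ∀ e : S, e * e = e → ∀ V ∈ 𝓝[{x : S | x * x = x}] e,
    ∃ W ∈ 𝓝[{x : S | x * x = x}] e, W ⊆ V ∧ ∀ x ∈ W, ∀ y ∈ W, x * y ∈ W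

/-- every factor of the translation by `u` is Hilbert representable -/
def AllFac (u : S) : Prop :=
  ∀ (Y : Type) [MetricSpace Y] [CompactSpace Y] (T' : Y ≃ₜ Y) (π : S → Y),
    Continuous π → Function.Surjective π → (∀ s, π (u * s) = T' (π s)) → HilbRep T'

namespace IsRep

variable {σ : S → H →L[ℂ] H}

lemma comm (h : IsRep σ) (s t : S) (v : H) : σ s (σ t v) = σ t (σ s v) := by
  rw [← h.mul, ← h.mul, mul_comm]

lemma norm_sq (h : IsRep σ) (s : S) (v : H) :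
    ‖σ s v‖ ^ 2 = (⟪v, σ (star s * s) v⟫_ℂ).re := by
  rw [h.mul, ← h.adj]
  exact (inner_self_eq_norm_sq (𝕜 := ℂ) _).symm

lemma re_inner_le (h : IsRep σ) (s : S) (v : H) : (⟪v, σ s v⟫_ℂ).re ≤ ‖v‖ ^ 2 := by
  calc (⟪v, σ s v⟫_ℂ).re ≤ ‖⟪v, σ s v⟫_ℂ‖ := Complex.re_le_norm _
    _ ≤ ‖v‖ * ‖σ s v‖ := norm_inner_le_norm _ _
    _ ≤ ‖v‖ * ‖v‖ := mul_le_mul_of_nonneg_left (h.contr s v) (norm_nonneg _)
    _ = ‖v‖ ^ 2 := (sq _).symm

lemma fix_of_re (h : IsRep σ) (s : S) (v : H) (hv : ‖v‖ ^ 2 ≤ (⟪v, σ s v⟫_ℂ).re) : σ s v = v := by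
  have h1 : ‖v - σ s v‖ ^ 2 = ‖v‖ ^ 2 - 2 * (⟪v, σ s v⟫_ℂ).re + ‖σ s v‖ ^ 2 :=
    norm_sub_sq (𝕜 := ℂ) _ _
  have h2 : ‖σ s v‖ ^ 2 ≤ ‖v‖ ^ 2 := pow_le_pow_left₀ (norm_nonneg _) (h.contr s v) 2
  have h3 : ‖v - σ s v‖ ^ 2 ≤ 0 := by linarith
  have h4 : ‖v - σ s v‖ = 0 := by nlinarith [norm_nonneg (v - σ s v)]
  exact (sub_eq_zero.1 (norm_eq_zero.1 h4)).symm

lemma fix_of_norm (h : IsRep σ) (s : S) (v : H) (hv : ‖v‖ ≤ ‖σ s v‖) :
    σ (star s * s) v = v := by
  refine h.fix_of_re _ v ?_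
  rw [← h.norm_sq]
  exact pow_le_pow_left₀ (norm_nonneg _) hv 2

lemma norm_of_fix (h : IsRep σ) (s : S) (v : H) (hv : σ (star s * s) v = v) : ‖σ s v‖ = ‖v‖ := by
  have h1 := h.norm_sq s v
  rw [hv] at h1
  have h2 : (⟪v, v⟫_ℂ).re = ‖v‖ ^ 2 := inner_self_eq_norm_sq (𝕜 := ℂ) v
  rw [h2] at h1
  exact (pow_left_inj₀ (norm_nonneg _) (norm_nonneg _) two_ne_zero).1 h1

/-- the topology of `S` is the weak topology of a faithful orbit -/
lemma tendsto_of_weak (h : IsRep σ) {v0 : H} (inj : Function.Injective fun s => σ s v0)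
    {ι : Type*} {l : Filter ι} {x : ι → S} {s : S}
    (hx : ∀ z, Tendsto (fun i => ⟪z, σ (x i) v0⟫_ℂ) l (𝓝 ⟪z, σ s v0⟫_ℂ)) : Tendsto x l (𝓝 s) := by
  have hc : Continuous fun (s : S) (z : H) => ⟪z, σ s v0⟫_ℂ := continuous_pi fun z => h.cont z v0
  have hi : Function.Injective fun (s : S) (z : H) => ⟪z, σ s v0⟫_ℂ :=
    fun s t hst => inj (ext_inner_left ℂ fun z => congrFun hst z)
  rw [(hc.isClosedEmbedding hi).isEmbedding.tendsto_nhds_iff, tendsto_pi_nhds]
  exact hx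

/-- weak convergence without loss of norm is norm convergence -/
lemma tendsto_norm (h : IsRep σ) {ι : Type*} {l : Filter ι} {x : ι → S} {s : S} (w : H)
    {g : ι → ℝ} (hx : Tendsto x l (𝓝 s)) (hg : ∀ᶠ i in l, ‖σ (x i) w‖ ^ 2 ≤ g i)
    (hl : Tendsto g l (𝓝 (‖σ s w‖ ^ 2))) : Tendsto (fun i => σ (x i) w) l (𝓝 (σ s w)) := by
  rw [tendsto_iff_norm_sub_tendsto_zero]
  have h1 : Tendsto (fun i => (⟪σ s w, σ (x i) w⟫_ℂ).re) l (𝓝 (⟪σ s w, σ s w⟫_ℂ).re) :=
    (Complex.continuous_re.tendsto _).comp (((h.cont _ _).tendsto s).comp hx)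
  have h2 : (⟪σ s w, σ s w⟫_ℂ).re = ‖σ s w‖ ^ 2 := inner_self_eq_norm_sq (𝕜 := ℂ) _
  rw [h2] at h1
  have h3 : Tendsto (fun i => ‖σ s w‖ ^ 2 - 2 * (⟪σ s w, σ (x i) w⟫_ℂ).re + g i) l
      (𝓝 (‖σ s w‖ ^ 2 - 2 * ‖σ s w‖ ^ 2 + ‖σ s w‖ ^ 2)) :=
    (tendsto_const_nhds.sub (h1.const_mul 2)).add hl
  rw [show ‖σ s w‖ ^ 2 - 2 * ‖σ s w‖ ^ 2 + ‖σ s w‖ ^ 2 = 0 by ring] at h3
  have h4 : Tendsto (fun i => ‖σ (x i) w - σ s w‖ ^ 2) l (𝓝 0) := by
    refine squeeze_zero' (Eventually.of_forall fun i => by positivity) ?_ h3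
    filter_upwards [hg] with i hi
    have h5 : ‖σ s w - σ (x i) w‖ ^ 2 =
        ‖σ s w‖ ^ 2 - 2 * (⟪σ s w, σ (x i) w⟫_ℂ).re + ‖σ (x i) w‖ ^ 2 := norm_sub_sq (𝕜 := ℂ) _ _
    rw [norm_sub_rev, h5]
    linarith
  have h6 := h4.sqrt
  simpa [Real.sqrt_sq (norm_nonneg _)] using h6

/-- joint continuity of the product where one factor converges in norm -/
lemma tendsto_mul (h : IsRep σ) {v0 : H} (inj : Function.Injective fun s => σ s v0)
    {ι : Type*} {l : Filter ι} {x y : ι → S} {s t : S} (hx : Tendsto x l (𝓝 s))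
    (hy : Tendsto (fun i => σ (y i) v0) l (𝓝 (σ t v0))) :
    Tendsto (fun i => x i * y i) l (𝓝 (s * t)) := by
  refine h.tendsto_of_weak inj fun z => ?_
  have h1 : Tendsto (fun i => ⟪z, σ (x i) (σ t v0)⟫_ℂ) l (𝓝 ⟪z, σ s (σ t v0)⟫_ℂ) :=
    ((h.cont _ _).tendsto s).comp hx
  have h2 : Tendsto (fun i => ⟪z, σ (x i) (σ (y i) v0 - σ t v0)⟫_ℂ) l (𝓝 0) := by
    rw [tendsto_zero_iff_norm_tendsto_zero]
    have h3 := (tendsto_iff_norm_sub_tendsto_zero.1 hy).const_mul ‖z‖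
    rw [mul_zero] at h3
    refine squeeze_zero (fun i => norm_nonneg _) (fun i => ?_) h3
    exact (norm_inner_le_norm _ _).trans
      (mul_le_mul_of_nonneg_left (h.contr _ _) (norm_nonneg _))
  have h4 := h1.add h2
  rw [add_zero, ← h.mul] at h4
  refine h4.congr fun i => ?_
  rw [map_sub, inner_sub_right, h.mul]
  ring

/-- in the regular case the involution is the inverse -/
lemma star_reg (h : IsRep σ) {v0 : H} (inj : Function.Injective fun s => σ s v0)
    {s q : S} (hq : s * q * s = s) : s * star s * s = s := by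
  have e1 : q * s * (s * q) = s * q := by
    calc q * s * (s * q) = (s * q * s) * q := by ac_rfl
      _ = s * q := by rw [hq]
  have h1 : ‖σ (s * q) v0‖ ≤ ‖σ s (σ (s * q) v0)‖ := by
    calc ‖σ (s * q) v0‖ = ‖σ q (σ s (σ (s * q) v0))‖ := by rw [← h.mul, ← h.mul, e1]
      _ ≤ _ := h.contr _ _
  have h2 := h.fix_of_norm s _ h1
  rw [← h.mul] at h2
  have h3 : star s * s * (s * q) = s * q := inj h2
  calc s * star s * s = star s * s * (s * q * s) := by rw [hq]; ac_rfl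
    _ = (star s * s * (s * q)) * s := by ac_rfl
    _ = s := by rw [h3, hq]

/-- a self-adjoint idempotent acts as an orthogonal projection -/
lemma norm_sq_idem (h : IsRep σ) {e : S} (he : e * e = e) (hs : star e = e) (w : H) :
    ‖σ e w‖ ^ 2 = (⟪w, σ e w⟫_ℂ).re := by
  rw [h.norm_sq, hs, he]

lemma pyth (h : IsRep σ) {e : S} (he : e * e = e) (hs : star e = e) (w : H) :
    ‖w - σ e w‖ ^ 2 + ‖σ e w‖ ^ 2 = ‖w‖ ^ 2 := by
  have h1 : ‖w - σ e w‖ ^ 2 = ‖w‖ ^ 2 - 2 * (⟪w, σ e w⟫_ℂ).re + ‖σ e w‖ ^ 2 :=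
    norm_sub_sq (𝕜 := ℂ) _ _
  rw [h1, ← h.norm_sq_idem he hs]
  ring

end IsRep

/-- idempotents are self-adjoint when the involution is the inverse -/
lemma star_idem (reg : ∀ s : S, s * star s * s = s) {e : S} (he : e * e = e) : star e = e := by
  have h1 : e * star e = e := by
    calc e * star e = (e * e) * star e := by rw [he]
      _ = e * star e * e := by ac_rfl
      _ = e := reg e
  have h2 := congrArg star h1
  rw [star_mul, star_star, h1] at h2
  exact h2.symm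

lemma abs_idem (reg : ∀ s : S, s * star s * s = s) (s : S) :
    star s * s * (star s * s) = star s * s := by
  calc star s * s * (star s * s) = star s * (s * star s * s) := by ac_rfl
    _ = star s * s := by rw [reg]

/-- the idempotents form a closed set -/
lemma isClosed_idem {u : S} (c : Ctx u) {σ : S → H →L[ℂ] H} (h : IsRep σ) {v0 : H}
    (inj : Function.Injective fun s => σ s v0) (reg : ∀ s : S, s * star s * s = s) :
    IsClosed {x : S | x * x = x} := by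
  have e : {x : S | x * x = x} =
      {x : S | star x = x} ∩ ⋂ w : H, {x : S | 0 ≤ (⟪w, σ x w⟫_ℂ).re} := by
    ext x
    simp only [Set.mem_ofPred_eq, Set.mem_inter_iff, Set.mem_iInter]
    constructor
    · intro hx
      refine ⟨star_idem reg hx, fun w => ?_⟩
      rw [← h.norm_sq_idem hx (star_idem reg hx)]
      positivity
    · rintro ⟨hs, hp⟩
      have h3 : x * (x * x) = x := by
        have := reg x
        rwa [hs, mul_assoc] at this
      have h1 : σ x (σ (x * x) v0 - σ x v0) = -(σ (x * x) v0 - σ x v0) := by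
        rw [map_sub, ← h.mul, ← h.mul, h3, neg_sub]
      have h2 := hp (σ (x * x) v0 - σ x v0)
      rw [h1, inner_neg_right, Complex.neg_re] at h2
      have h4 : (⟪σ (x * x) v0 - σ x v0, σ (x * x) v0 - σ x v0⟫_ℂ).re =
          ‖σ (x * x) v0 - σ x v0‖ ^ 2 := inner_self_eq_norm_sq (𝕜 := ℂ) _
      rw [h4] at h2
      have h5 : ‖σ (x * x) v0 - σ x v0‖ = 0 := by nlinarith [norm_nonneg (σ (x * x) v0 - σ x v0)]
      exact inj (sub_eq_zero.1 (norm_eq_zero.1 h5))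
  rw [e]
  exact (isClosed_eq c.cstar continuous_id).inter
    (isClosed_iInter fun w => isClosed_le continuous_const
      (Complex.continuous_re.comp (h.cont w w)))

/-- on the idempotents the action is norm continuous -/
lemma tendsto_idem {σ : S → H →L[ℂ] H} (h : IsRep σ) (reg : ∀ s : S, s * star s * s = s)
    {ι : Type*} {l : Filter ι} {x : ι → S} {e : S} (hx : Tendsto x l (𝓝 e))
    (hi : ∀ᶠ i in l, x i * x i = x i) (he : e * e = e) (w : H) :
    Tendsto (fun i => σ (x i) w) l (𝓝 (σ e w)) := by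
  refine h.tendsto_norm w (g := fun i => (⟪w, σ (x i) w⟫_ℂ).re) hx ?_ ?_
  · filter_upwards [hi] with i hi
    exact (h.norm_sq_idem hi (star_idem reg hi) w).le
  · rw [h.norm_sq_idem he (star_idem reg he)]
    exact (Complex.continuous_re.tendsto _).comp (((h.cont w w).tendsto e).comp hx)

end Pool.Agent.MP_5139aa_an.Cl
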