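import Mathlib
import Pool.Agent.MP_5139aa_an.Cl.Basic

set_option autoImplicit false
set_option linter.unusedSectionVars false

namespace Pool.Agent.MP_5139aa_an.Cl

open Filter Topology
open scoped InnerProductSpace ComplexOrder ComplexConjugate

section Kol

variable {Y : Type}

/-- finitely supported functions with the semi-inner product of a kernel -/
def Pre (k : Matrix Y Y ℂ) (_ : k.PosSemidef) : Type := Y →₀ ℂ

variable (k : Matrix Y Y ℂ) (hk : k.PosSemidef)

noncomputable instance : AddCommGroup (Pre k hk) := inferInstanceAs (AddCommGroup (Y →₀ ℂ))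

noncomputable instance : Module ℂ (Pre k hk) := inferInstanceAs (Module ℂ (Y →₀ ℂ))

/-- the sesquilinear form -/
noncomputable def form (f g : Y →₀ ℂ) : ℂ :=
  f.sum fun m a => g.sum fun n b => star a * k m n * b

include hk in
lemma form_conj (f g : Y →₀ ℂ) : conj (form k g f) = form k f g := by
  unfold form
  rw [Finsupp.sum_comm]
  simp only [map_finsuppSum]
  refine Finsupp.sum_congr (fun m _ => Finsupp.sum_congr (fun n _ => ?_))
  rw [← hk.isHermitian.apply m n]
  simp only [map_mul, RCLike.star_def, Complex.conj_conj]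
  ring

lemma form_add (f g h : Y →₀ ℂ) : form k (f + g) h = form k f h + form k g h := by
  unfold form
  rw [Finsupp.sum_add_index'] <;> simp [← Finsupp.sum_add, add_mul]

lemma form_smul (f g : Y →₀ ℂ) (r : ℂ) : form k (r • f) g = conj r * form k f g := by
  unfold form
  rw [Finsupp.sum_smul_index] <;> simp [Finsupp.mul_sum, ← mul_assoc]

noncomputable instance core : PreInnerProductSpace.Core ℂ (Pre k hk) where
  inner f g := form k f g
  conj_inner_symm f g := form_conj k hk f g
  add_left f g h := form_add k f g h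
  smul_left f g r := form_smul k f g r
  re_inner_nonneg f := (Complex.nonneg_iff.1 (hk.2 f)).1

noncomputable instance : SeminormedAddCommGroup (Pre k hk) :=
  InnerProductSpace.Core.toSeminormedAddCommGroup (𝕜 := ℂ)

noncomputable instance : InnerProductSpace ℂ (Pre k hk) := .ofCore _

lemma inner_pre (f g : Pre k hk) : ⟪f, g⟫_ℂ = form k f g := rfl

include hk in
theorem kolmogorov : ∃ (H : Type) (_ : NormedAddCommGroup H) (_ : InnerProductSpace ℂ H)
    (_ : CompleteSpace H) (g : Y → H),
    (∀ x y, ⟪g x, g y⟫_ℂ = k x y) ∧ DenseRange (Finsupp.linearCombination ℂ g) := by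
  let inc : Pre k hk →ₗ[ℂ] UniformSpace.Completion (Pre k hk) :=
    (UniformSpace.Completion.toComplL : Pre k hk →L[ℂ] _).toLinearMap
  let pt : Y → Pre k hk := fun y => (Finsupp.single y 1 : Y →₀ ℂ)
  refine ⟨UniformSpace.Completion (Pre k hk), inferInstance, inferInstance, inferInstance,
    fun y => inc (pt y), fun x y => ?_, ?_⟩
  · change ⟪((pt x : Pre k hk) : UniformSpace.Completion (Pre k hk)),
      ((pt y : Pre k hk) : UniformSpace.Completion (Pre k hk))⟫_ℂ = _
    rw [UniformSpace.Completion.inner_coe, inner_pre]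
    simp [form, pt]
  · have e : Finsupp.linearCombination ℂ (fun y => inc (pt y)) = inc :=
      Finsupp.lhom_ext' (R := ℂ) (α := Y) (M := ℂ) (ψ := inc)
        (fun y => LinearMap.ext_ring (by
          simp only [LinearMap.comp_apply, Finsupp.lsingle_apply,
            Finsupp.linearCombination_single, one_smul]
          rfl))
    rw [e]
    exact UniformSpace.Completion.denseRange_coe (α := Pre k hk)

end Kol

variable {S : Type} [CommMonoid S] [StarMul S] [MetricSpace S] [CompactSpace S]
variable {H : Type} [NormedAddCommGroup H] [InnerProductSpace ℂ H] [CompleteSpace H]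

lemma psd_gram {Y : Type} (g : Y → H) : (Matrix.of fun s t => ⟪g s, g t⟫_ℂ).PosSemidef := by
  refine ⟨Matrix.IsHermitian.ext fun i j => by simp, fun x => ?_⟩
  have e : (x.sum fun i xi => x.sum fun j xj => star xi * (Matrix.of fun s t => ⟪g s, g t⟫_ℂ) i j * xj)
      = ⟪x.sum fun i xi => xi • g i, x.sum fun i xi => xi • g i⟫_ℂ := by
    rw [Finsupp.sum_inner]
    refine Finsupp.sum_congr fun i _ => ?_
    rw [Finsupp.inner_sum]
    refine Finsupp.sum_congr fun j _ => ?_
    rw [inner_smul_left, inner_smul_right, Matrix.of_apply]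
    simp only [RCLike.star_def]
    ring
  rw [e, inner_self_eq_norm_sq_to_K]
  positivity

lemma weak_cont {Y : Type} [TopologicalSpace Y] (g : Y → H) (M : ℝ) (hM : ∀ y, ‖g y‖ ≤ M)
    {D : Set H} (hD : Dense D) (h : ∀ z ∈ D, Continuous fun y => ⟪z, g y⟫_ℂ) (z : H) :
    Continuous fun y => ⟪z, g y⟫_ℂ := by
  refine continuous_of_uniform_approx_of_continuous fun U hU => ?_
  obtain ⟨ε, hε, hU⟩ := Metric.mem_uniformity_dist.1 hU
  obtain ⟨w, hw, hzw⟩ := hD.exists_dist_lt z (ε := ε / (|M| + 1)) (by positivity)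
  refine ⟨_, h w hw, fun y => hU ?_⟩
  rw [dist_eq_norm, ← inner_sub_left]
  rw [dist_eq_norm, lt_div_iff₀ (by positivity)] at hzw
  calc ‖⟪z - w, g y⟫_ℂ‖ ≤ ‖z - w‖ * ‖g y‖ := norm_inner_le_norm _ _
    _ ≤ ‖z - w‖ * (|M| + 1) :=
        mul_le_mul_of_nonneg_left (by linarith [hM y, le_abs_self M]) (norm_nonneg _)
    _ < ε := hzw

lemma ext_span {Y : Type} {g : Y → H} (hd : DenseRange (Finsupp.linearCombination ℂ g))
    {F : Type} [NormedAddCommGroup F] [NormedSpace ℂ F] (A B : H →L[ℂ] F)
    (h : ∀ s, A (g s) = B (g s)) (v : H) : A v = B v := by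
  have e : A.toLinearMap ∘ₗ Finsupp.linearCombination ℂ g =
      B.toLinearMap ∘ₗ Finsupp.linearCombination ℂ g :=
    Finsupp.lhom_ext' fun y => LinearMap.ext_ring (by simpa using h y)
  exact hd.induction_on v (isClosed_eq A.continuous B.continuous) fun f => LinearMap.congr_fun e f

theorem gns {u : S} (c : Ctx u) (φ : S → ℂ) (hc : Continuous φ)
    (hp : (Matrix.of fun s t : S => φ (star s * t)).PosSemidef) :
    ∃ (H : Type) (_ : NormedAddCommGroup H) (_ : InnerProductSpace ℂ H) (_ : CompleteSpace H)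
      (σ : S → H →L[ℂ] H) (v : H), IsRep σ ∧ ∀ s, ⟪v, σ s v⟫_ℂ = φ s := by
  obtain ⟨H, i1, i2, i3, g, hg, hd⟩ := kolmogorov _ hp
  simp only [Matrix.of_apply] at hg
  obtain ⟨M, hM⟩ := (isCompact_range hc.norm).bddAbove
  have hM' : ∀ s, ‖g s‖ ≤ Real.sqrt M := fun s => by
    refine Real.le_sqrt_of_sq_le ?_
    rw [← inner_self_eq_norm_sq (𝕜 := ℂ), hg]
    exact (Complex.re_le_norm _).trans (hM ⟨_, rfl⟩)
  have hw : ∀ z, Continuous fun s => ⟪z, g s⟫_ℂ := by
    refine weak_cont g _ hM' hd ?_
    rintro _ ⟨ξ, rfl⟩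
    simp only [Finsupp.linearCombination_apply, Finsupp.sum, sum_inner, inner_smul_left, hg]
    exact continuous_finsetSum _ fun s _ => continuous_const.mul (hc.comp (c.cmul _))
  let L : S → (S →₀ ℂ) →ₗ[ℂ] H := fun a => Finsupp.linearCombination ℂ fun s => g (a * s)
  have hL : ∀ a b ξ, star a * a = star b * b → ‖L a ξ‖ = ‖L b ξ‖ := by
    intro a b ξ hab
    rw [@norm_eq_sqrt_re_inner ℂ, @norm_eq_sqrt_re_inner ℂ]
    congr 2
    simp only [L, Finsupp.linearCombination_apply, Finsupp.sum, sum_inner, inner_sum,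
      inner_smul_left, inner_smul_right, hg]
    refine Finset.sum_congr rfl fun s _ => ?_
    congr 1
    refine Finset.sum_congr rfl fun t _ => ?_
    congr 2
    calc star (a * t) * (a * s) = (star a * a) * (star t * s) := by rw [star_mul]; ac_rfl
      _ = star (b * t) * (b * s) := by rw [hab, star_mul]; ac_rfl
  have hL1 : L 1 = Finsupp.linearCombination ℂ g := by simp only [L, one_mul]
  have hcon : ∀ a, a ∈ {a : S | ∀ ξ, ‖L a ξ‖ ≤ 1 * ‖Finsupp.linearCombination ℂ g ξ‖} := by
    refine c.ind _ ?_ (fun ξ => by rw [hL1, one_mul]) (fun a ha ξ => ?_) (fun a ha ξ => ?_)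
    · have e : {a : S | ∀ ξ, ‖L a ξ‖ ≤ 1 * ‖Finsupp.linearCombination ℂ g ξ‖} =
          ⋂ ξ, ⋂ z : H, {a : S | ‖⟪z, L a ξ⟫_ℂ‖ ≤ ‖z‖ * ‖Finsupp.linearCombination ℂ g ξ‖} := by
        ext a
        simp only [Set.mem_ofPred_eq, Set.mem_iInter, one_mul]
        refine forall_congr' fun ξ => ⟨fun h z => ?_, fun h => ?_⟩
        · exact (norm_inner_le_norm _ _).trans (mul_le_mul_of_nonneg_left h (norm_nonneg _))
        · have h1 := h (L a ξ)
          rw [inner_self_eq_norm_sq_to_K, norm_pow, RCLike.norm_ofReal, abs_norm, sq] at h1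
          rcases (norm_nonneg (L a ξ)).eq_or_lt with h0 | h0
          · rw [← h0]; exact norm_nonneg _
          · exact le_of_mul_le_mul_left h1 h0
      rw [e]
      refine isClosed_iInter fun ξ => isClosed_iInter fun z => isClosed_le ?_ continuous_const
      simp only [L, Finsupp.linearCombination_apply, Finsupp.sum, inner_sum, inner_smul_right]
      refine (continuous_finsetSum _ fun s _ => continuous_const.mul ((hw z).comp ?_)).norm
      simpa only [mul_comm] using c.cmul s
    · rw [hL (u * a) a ξ ?_]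
      · exact ha ξ
      · calc star (u * a) * (u * a) = (star u * u) * (star a * a) := by rw [star_mul]; ac_rfl
          _ = _ := by rw [c.unit, one_mul]
    · rw [hL (star u * a) a ξ ?_]
      · exact ha ξ
      · calc star (star u * a) * (star u * a) = (star u * u) * (star a * a) := by
              rw [star_mul, star_star]; ac_rfl
          _ = _ := by rw [c.unit, one_mul]
  let σ : S → H →L[ℂ] H := fun a => (L a).extendOfNorm (Finsupp.linearCombination ℂ g)
  have hσ : ∀ a s, σ a (g s) = g (a * s) := by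
    intro a s
    have := LinearMap.extendOfNorm_eq (f := L a) hd ⟨1, hcon a⟩ (Finsupp.single s 1)
    simpa [L] using this
  have hcontr : ∀ a v, ‖σ a v‖ ≤ ‖v‖ := fun a v => by
    simpa using LinearMap.norm_extendOfNorm_apply_le (f := L a) hd 1 (hcon a) v
  have hadj : ∀ a v w, ⟪σ a v, w⟫_ℂ = ⟪v, σ (star a) w⟫_ℂ := by
    intro a v w
    have h1 : ∀ s w, ⟪σ a (g s), w⟫_ℂ = ⟪g s, σ (star a) w⟫_ℂ := fun s w =>
      ext_span hd (innerSL ℂ (σ a (g s))) ((innerSL ℂ (g s)).comp (σ (star a)))
        (fun t => by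
          simp only [innerSL_apply_apply, ContinuousLinearMap.comp_apply, hσ, hg, star_mul,
            mul_assoc]) w
    have h2 := ext_span hd ((innerSL ℂ w).comp (σ a)) (innerSL ℂ (σ (star a) w))
      (fun s => by
        simp only [innerSL_apply_apply, ContinuousLinearMap.comp_apply]
        rw [← inner_conj_symm, h1, inner_conj_symm]) v
    simp only [innerSL_apply_apply, ContinuousLinearMap.comp_apply] at h2
    rw [← inner_conj_symm, h2, inner_conj_symm]
  refine ⟨H, i1, i2, i3, σ, g 1, ⟨fun v => ?_, fun s t v => ?_, hadj, fun v w => ?_, hcontr⟩,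
    fun s => by rw [hσ, hg, star_one, one_mul, mul_one]⟩
  · exact ext_span hd (σ 1) (ContinuousLinearMap.id ℂ H) (fun s => by simp [hσ]) v
  · exact ext_span hd (σ (s * t)) ((σ s).comp (σ t)) (fun r => by simp [hσ, mul_assoc]) v
  · have h1 : Continuous fun s => ⟪w, σ (star s) v⟫_ℂ := by
      refine weak_cont (fun s => σ (star s) v) ‖v‖ (fun s => hcontr _ _) hd ?_ w
      rintro _ ⟨ξ, rfl⟩
      simp only [Finsupp.linearCombination_apply, Finsupp.sum, sum_inner, inner_smul_left]
      refine continuous_finsetSum _ fun t _ => continuous_const.mul ?_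
      have e : (fun s => ⟪g t, σ (star s) v⟫_ℂ) = fun s => conj ⟪v, g (t * s)⟫_ℂ := by
        funext s
        rw [← hadj, hσ, inner_conj_symm, mul_comm]
      rw [e]
      exact Complex.continuous_conj.comp ((hw v).comp (c.cmul t))
    have e : (fun s => ⟪v, σ s w⟫_ℂ) = fun s => conj ⟪w, σ (star s) v⟫_ℂ := by
      funext s
      rw [← hadj, inner_conj_symm]
    rw [e]
    exact Complex.continuous_conj.comp h1

/-- an equivariant weakly continuous map is an orbit of a representation -/
theorem rep_of_equiv {u : S} (c : Ctx u) (U : H ≃ₗᵢ[ℂ] H) (g : S → H)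
    (hg : ∀ s, g (u * s) = U (g s)) (hc : ∀ v : H, Continuous fun s => ⟪v, g s⟫_ℂ) :
    ∃ (H' : Type) (_ : NormedAddCommGroup H') (_ : InnerProductSpace ℂ H') (_ : CompleteSpace H')
      (σ : S → H' →L[ℂ] H') (v : H'), IsRep σ ∧ (∀ s t, σ s v = σ t v ↔ g s = g t) ∧
      ∀ s, σ s v = 0 ↔ g s = 0 := by
  have key : ∀ s, s ∈ {s : S | ∀ t, ⟪g s, g t⟫_ℂ = ⟪g 1, g (star s * t)⟫_ℂ} := by
    refine c.ind _ ?_ (fun t => by rw [star_one, one_mul]) (fun s hs t => ?_) (fun s hs t => ?_)
    · rw [Set.ofPred_forall]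
      refine isClosed_iInter fun t => isClosed_eq ?_ ((hc _).comp ?_)
      · simpa only [inner_conj_symm] using Complex.continuous_conj.comp' (hc (g t))
      · simpa only [mul_comm] using (c.cmul t).comp' c.cstar
    · have e : g t = U (g (star u * t)) := by
        rw [← hg, ← mul_assoc, mul_comm u, c.unit, one_mul]
      rw [hg, e, U.inner_map_map, hs, star_mul, mul_assoc]
    · have e : g s = U (g (star u * s)) := by
        rw [← hg, ← mul_assoc, mul_comm u, c.unit, one_mul]
      rw [← U.inner_map_map, ← e, ← hg, hs, star_mul, star_star, mul_assoc]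
  have hp : (Matrix.of fun s t : S => ⟪g 1, g (star s * t)⟫_ℂ).PosSemidef := by
    have e : (Matrix.of fun s t : S => ⟪g 1, g (star s * t)⟫_ℂ) =
        Matrix.of fun s t : S => ⟪g s, g t⟫_ℂ := by
      ext s t
      exact (key s t).symm
    rw [e]
    exact psd_gram g
  obtain ⟨H', i1, i2, i3, σ, v, hσ, hv⟩ := gns c (fun s => ⟪g 1, g s⟫_ℂ) (hc _) hp
  have hin : ∀ s t, ⟪σ s v, σ t v⟫_ℂ = ⟪g s, g t⟫_ℂ := fun s t => by
    rw [hσ.adj, ← hσ.mul, hv, key s t]
  refine ⟨H', i1, i2, i3, σ, v, hσ, fun s t => ?_, fun s => ?_⟩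
  · rw [← sub_eq_zero, ← inner_self_eq_zero (𝕜 := ℂ), ← sub_eq_zero (a := g s),
      ← inner_self_eq_zero (𝕜 := ℂ) (x := g s - g t)]
    simp only [inner_sub_left, inner_sub_right, hin]
  · rw [← inner_self_eq_zero (𝕜 := ℂ), hin, inner_self_eq_zero]

/-- an orbit of a representation whose fibres are those of a factor map represents the factor -/
theorem hilbRep_of_rep {u : S} (c : Ctx u) {σ : S → H →L[ℂ] H} (h : IsRep σ) (v : H)
    {Y : Type} [MetricSpace Y] (T' : Y ≃ₜ Y) (π : S → Y) (hc : Continuous π)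
    (hs : Function.Surjective π) (he : ∀ s, π (u * s) = T' (π s))
    (hf : ∀ s t, π s = π t ↔ σ s v = σ t v) : HilbRep T' := by
  let U : H ≃ₗᵢ[ℂ] H :=
    { toLinearEquiv := LinearEquiv.ofLinearMap (σ u).toLinearMap (σ (star u)).toLinearMap
        (LinearMap.ext fun w => by
          change σ u (σ (star u) w) = w
          rw [← h.mul, mul_comm, c.unit, h.one])
        (LinearMap.ext fun w => by
          change σ (star u) (σ u w) = w
          rw [← h.mul, c.unit, h.one])
      norm_map' := fun w => h.norm_of_fix u w (by rw [c.unit, h.one]) }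
  let r : Y → S := Function.surjInv hs
  have hr : ∀ y, π (r y) = y := Function.surjInv_eq hs
  have hπ : ∀ s, σ (r (π s)) v = σ s v := fun s => (hf _ _).1 (hr _)
  refine ⟨H, inferInstance, inferInstance, inferInstance, U, fun y => σ (r y) v,
    fun y z hyz => ?_, fun y => ?_, fun w => ?_⟩
  · rw [← hr y, ← hr z]
    exact (hf _ _).2 hyz
  · obtain ⟨s, rfl⟩ := hs y
    change σ (r (T' (π s))) v = σ u (σ (r (π s)) v)
    rw [← he, hπ, hπ, h.mul]
  · rw [(hc.isClosedMap.isQuotientMap hc hs).continuous_iff]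
    have e : ((fun y => ⟪w, σ (r y) v⟫_ℂ) ∘ π) = fun s => ⟪w, σ s v⟫_ℂ := by
      funext s
      simp only [Function.comp_apply, hπ]
    rw [e]
    exact h.cont w v

end Pool.Agent.MP_5139aa_an.Cl
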