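import Mathlib
import Pool.Agent.MP_5139aa_an.Cl.Gns

set_option autoImplicit false
set_option linter.unusedSectionVars false

namespace Pool.Agent.MP_5139aa_an.Cl

open Filter Topology
open scoped InnerProductSpace ComplexOrder ComplexConjugate

variable {S : Type} [CommMonoid S] [StarMul S] [MetricSpace S] [CompactSpace S]
variable {H : Type} [NormedAddCommGroup H] [InnerProductSpace ℂ H] [CompleteSpace H]

lemma pd_iff {φ : S → ℝ} : PD φ ↔ (∀ s t, φ (star s * t) = φ (star t * s)) ∧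
    ∀ x : S →₀ ℂ, 0 ≤ ∑ i ∈ x.support, ∑ j ∈ x.support,
      (star (x i) * x j).re * φ (star i * j) := by
  have e : ∀ x : S →₀ ℂ, (x.sum fun i xi => x.sum fun j xj =>
      star xi * (Matrix.of fun s t : S => ((φ (star s * t) : ℝ) : ℂ)) i j * xj).re =
      ∑ i ∈ x.support, ∑ j ∈ x.support, (star (x i) * x j).re * φ (star i * j) := by
    intro x
    simp only [Finsupp.sum, Complex.re_sum, Matrix.of_apply]
    refine Finset.sum_congr rfl fun i _ => Finset.sum_congr rfl fun j _ => ?_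
    rw [mul_right_comm, Complex.re_mul_ofReal]
  constructor
  · intro h
    refine ⟨fun s t => ?_, fun x => e x ▸ (Complex.nonneg_iff.1 (h.2 x)).1⟩
    have := h.1.apply t s
    simpa using this
  · rintro ⟨h1, h2⟩
    refine ⟨Matrix.IsHermitian.ext fun i j => by simp [h1 j i], fun x => ?_⟩
    rw [Complex.nonneg_iff, e]
    refine ⟨h2 x, (Complex.conj_eq_iff_im.1 ?_).symm⟩
    simp only [Finsupp.sum, map_sum, Matrix.of_apply]
    rw [Finset.sum_comm]
    refine Finset.sum_congr rfl fun i _ => Finset.sum_congr rfl fun j _ => ?_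
    rw [h1 j i]
    simp only [map_mul, RCLike.star_def, Complex.conj_conj, Complex.conj_ofReal]
    ring

namespace PD

variable {φ ψ : S → ℝ}

lemma add (h1 : PD φ) (h2 : PD ψ) : PD fun s => φ s + ψ s := by
  rw [pd_iff] at *
  refine ⟨fun s t => by rw [h1.1, h2.1], fun x => ?_⟩
  simpa only [mul_add, Finset.sum_add_distrib] using add_nonneg (h1.2 x) (h2.2 x)

lemma smul {r : ℝ} (hr : 0 ≤ r) (h : PD φ) : PD fun s => r * φ s := by
  rw [pd_iff] at *
  refine ⟨fun s t => by rw [h.1], fun x => ?_⟩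
  simpa only [Finset.mul_sum, mul_left_comm] using mul_nonneg hr (h.2 x)

lemma mul (h1 : PD φ) (h2 : PD ψ) : PD fun s => φ s * ψ s := by
  have e : (Matrix.of fun s t : S => ((φ (star s * t) * ψ (star s * t) : ℝ) : ℂ)) =
      Matrix.hadamard (Matrix.of fun s t : S => ((φ (star s * t) : ℝ) : ℂ))
        (Matrix.of fun s t : S => ((ψ (star s * t) : ℝ) : ℂ)) := by
    ext s t
    simp
  unfold PD
  rw [e]
  exact Matrix.PosSemidef.hadamard h1 h2

lemma one : PD fun _ : S => (1 : ℝ) := by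
  have := psd_gram fun _ : S => (1 : ℂ)
  simpa [PD] using this

lemma const {r : ℝ} (hr : 0 ≤ r) : PD fun _ : S => r := by
  simpa using smul hr (one (S := S))

lemma pow (h : PD φ) (k : ℕ) : PD fun s => φ s ^ k := by
  induction k with
  | zero => simpa using one
  | succ k ih => simpa only [pow_succ] using ih.mul h

lemma sum {ι : Type} (F : Finset ι) {φ : ι → S → ℝ} (h : ∀ i ∈ F, PD (φ i)) :
    PD fun s => ∑ i ∈ F, φ i s := by
  classical
  induction F using Finset.induction_on with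
  | empty => simpa using const le_rfl
  | insert a F ha ih =>
    simpa only [Finset.sum_insert ha] using (h a (Finset.mem_insert_self _ _)).add
      (ih fun i hi => h i (Finset.mem_insert_of_mem hi))

lemma prod {ι : Type} (F : Finset ι) {φ : ι → S → ℝ} (h : ∀ i ∈ F, PD (φ i)) :
    PD fun s => ∏ i ∈ F, φ i s := by
  classical
  induction F using Finset.induction_on with
  | empty => simpa using one
  | insert a F ha ih =>
    simpa only [Finset.prod_insert ha] using (h a (Finset.mem_insert_self _ _)).mul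
      (ih fun i hi => h i (Finset.mem_insert_of_mem hi))

lemma lim {φ : ℕ → S → ℝ} (h : ∀ n, PD (φ n))
    (hl : ∀ s, Tendsto (fun n => φ n s) atTop (𝓝 (ψ s))) : PD ψ := by
  simp only [pd_iff] at *
  refine ⟨fun s t => tendsto_nhds_unique (hl _) ((hl _).congr fun n => (h n).1 t s), fun x => ?_⟩
  exact ge_of_tendsto' (tendsto_finsetSum _ fun i _ => tendsto_finsetSum _ fun j _ =>
    (hl _).const_mul _) fun n => (h n).2 x

lemma integral {μ : MeasureTheory.Measure ℝ} {φ : ℝ → S → ℝ} (h : ∀ t, PD (φ t))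
    (hi : ∀ s, MeasureTheory.Integrable (fun t => φ t s) μ) : PD fun s => ∫ t, φ t s ∂μ := by
  simp only [pd_iff] at *
  refine ⟨fun s t => by simp only [fun r => (h r).1 s t], fun x => ?_⟩
  have h1 : 0 ≤ ∫ t, ∑ i ∈ x.support, ∑ j ∈ x.support,
      (star (x i) * x j).re * φ t (star i * j) ∂μ :=
    MeasureTheory.integral_nonneg fun t => (h t).2 x
  rw [MeasureTheory.integral_finsetSum _ fun i _ => MeasureTheory.integrable_finsetSum _
    fun j _ => (hi _).const_mul _] at h1
  refine h1.trans_eq (Finset.sum_congr rfl fun i _ => ?_)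
  rw [MeasureTheory.integral_finsetSum _ fun j _ => (hi _).const_mul _]
  exact Finset.sum_congr rfl fun j _ => MeasureTheory.integral_const_mul _ _

end PD

namespace IsRep

variable {σ : S → H →L[ℂ] H}

lemma psd (h : IsRep σ) (v : H) :
    (Matrix.of fun s t : S => ⟪v, σ (star s * t) v⟫_ℂ).PosSemidef := by
  simpa only [h.mul, ← h.adj] using psd_gram fun s => σ s v

lemma conj_coef (h : IsRep σ) (v : H) (s t : S) :
    ⟪v, σ (star t * s) v⟫_ℂ = conj ⟪v, σ (star s * t) v⟫_ℂ := by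
  rw [h.mul, h.mul, ← h.adj, ← h.adj, inner_conj_symm]

lemma pd_re (h : IsRep σ) (v : H) : PD fun s => (⟪v, σ s v⟫_ℂ).re := by
  have h1 := ((h.psd v).add (h.psd v).transpose).smul (a := (1 / 2 : ℂ)) (by
    rw [Complex.nonneg_iff]; norm_num)
  have e : (Matrix.of fun s t : S => (((⟪v, σ (star s * t) v⟫_ℂ).re : ℝ) : ℂ)) =
      (1 / 2 : ℂ) • ((Matrix.of fun s t : S => ⟪v, σ (star s * t) v⟫_ℂ) +
        (Matrix.of fun s t : S => ⟪v, σ (star s * t) v⟫_ℂ).transpose) := by
    ext s t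
    simp only [Matrix.of_apply, Matrix.smul_apply, Matrix.add_apply, Matrix.transpose_apply,
      smul_eq_mul]
    rw [h.conj_coef v s t, Complex.add_conj]
    push_cast
    ring
  unfold PD
  rw [e]
  exact h1

lemma pd_sq (h : IsRep σ) (v : H) : PD fun s => ‖⟪v, σ s v⟫_ℂ‖ ^ 2 := by
  have e : (Matrix.of fun s t : S => ((‖⟪v, σ (star s * t) v⟫_ℂ‖ ^ 2 : ℝ) : ℂ)) =
      Matrix.hadamard (Matrix.of fun s t : S => ⟪v, σ (star s * t) v⟫_ℂ)
        (Matrix.of fun s t : S => ⟪v, σ (star s * t) v⟫_ℂ).transpose := by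
    ext s t
    simp only [Matrix.of_apply, Matrix.hadamard_apply, Matrix.transpose_apply]
    rw [h.conj_coef v s t, Complex.mul_conj']
    push_cast
    rfl
  unfold PD
  rw [e]
  exact (h.psd v).hadamard (h.psd v).transpose

end IsRep

theorem PD.gns {u : S} (c : Ctx u) {φ : S → ℝ} (hφ : PD φ) (hc : Continuous φ) :
    ∃ (H : Type) (_ : NormedAddCommGroup H) (_ : InnerProductSpace ℂ H) (_ : CompleteSpace H)
      (σ : S → H →L[ℂ] H) (v : H), IsRep σ ∧ ∀ s, ⟪v, σ s v⟫_ℂ = φ s :=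
  Cl.gns c (fun s => (φ s : ℂ)) (Complex.continuous_ofReal.comp hc) hφ

/-- averaging a positive definite function over a star subsemigroup -/
theorem avg {u : S} (c : Ctx u) {φ : S → ℝ} (hφ : PD φ) (hc : Continuous φ) {N : Set S}
    (hne : N.Nonempty) (hmul : ∀ m ∈ N, ∀ n ∈ N, m * n ∈ N) (hstar : ∀ n ∈ N, star n ∈ N) :
    ∃ ψ : S → ℝ, PD ψ ∧ Continuous ψ ∧ (∀ s, ∀ n ∈ N, ψ (s * n) = ψ s) ∧
      ∀ (F : Finset S) (x : S → S) (ε r : ℝ),
        (∀ n ∈ N, r ≤ ε * ∑ i ∈ F, φ (x i * n)) → r ≤ ε * ∑ i ∈ F, ψ (x i) := by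
  obtain ⟨H, _, _, _, σ, v, h, hv⟩ := hφ.gns c hc
  let K : Set H := closure (convexHull ℝ ((fun n => σ n v) '' N))
  have hK : ∀ C : Set H, IsClosed C → Convex ℝ C → (∀ n ∈ N, σ n v ∈ C) → K ⊆ C :=
    fun C h1 h2 h3 => closure_minimal (convexHull_min (Set.image_subset_iff.2 h3) h2) h1
  have hKc : Convex ℝ K := (convex_convexHull ℝ _).closure
  have hKm : ∀ n ∈ N, σ n v ∈ K := fun n hn => subset_closure (subset_convexHull ℝ _ ⟨n, hn, rfl⟩)
  obtain ⟨p, hp, hmin⟩ : ∃ p ∈ K, ∀ q ∈ K, ‖p‖ ≤ ‖q‖ := by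
    let _ : InnerProductSpace ℝ H := InnerProductSpace.complexToReal
    obtain ⟨n, hn⟩ := hne
    obtain ⟨p, hp, he⟩ := exists_norm_eq_iInf_of_complete_convex ⟨_, hKm n hn⟩
      isClosed_closure.isComplete hKc 0
    refine ⟨p, hp, fun q hq => ?_⟩
    have h1 := ciInf_le (f := fun w : K => ‖(0 : H) - w‖)
      ⟨0, Set.forall_mem_range.2 fun _ => norm_nonneg _⟩ ⟨q, hq⟩
    rw [← he] at h1
    simpa using h1
  have hfix : ∀ m ∈ N, σ m p = p := by
    intro m hm
    have h1 : σ m p ∈ K :=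
      hK ((σ m) ⁻¹' K) (isClosed_closure.preimage (σ m).continuous)
        (hKc.linear_preimage ((σ m).restrictScalars ℝ).toLinearMap)
        (fun n hn => by
          change σ m (σ n v) ∈ K
          rw [← h.mul]
          exact hKm _ (hmul m hm n hn)) hp
    have h2 := hmin _ (hKc hp h1 (a := 1 / 2) (b := 1 / 2) (by norm_num) (by norm_num) (by norm_num))
    rw [← smul_add, norm_smul, Real.norm_of_nonneg (by norm_num)] at h2
    have h3 := parallelogram_law_with_norm ℂ p (σ m p)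
    have h4 := h.contr m p
    have h5 : ‖p - σ m p‖ = 0 := by
      nlinarith [norm_nonneg p, norm_nonneg (σ m p), norm_nonneg (p - σ m p),
        norm_nonneg (p + σ m p)]
    exact (sub_eq_zero.1 (norm_eq_zero.1 h5)).symm
  have hpv : ∀ s, ⟪p, σ s p⟫_ℂ = ⟪v, σ s p⟫_ℂ := by
    intro s
    have h1 : ⟪σ s p, p⟫_ℂ = ⟪σ s p, v⟫_ℂ :=
      hK ((innerSL ℂ (σ s p)) ⁻¹' {⟪σ s p, v⟫_ℂ})
        (isClosed_singleton.preimage (innerSL ℂ (σ s p)).continuous)
        ((convex_singleton _).linear_preimage ((innerSL ℂ (σ s p)).restrictScalars ℝ).toLinearMap)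
        (fun n hn => by
          change ⟪σ s p, σ n v⟫_ℂ = ⟪σ s p, v⟫_ℂ
          conv_lhs => rw [← star_star n, ← h.adj, h.comm, hfix _ (hstar n hn)]) hp
    rw [← inner_conj_symm, h1, inner_conj_symm]
  refine ⟨fun s => (⟪v, σ s p⟫_ℂ).re, ?_, Complex.continuous_re.comp (h.cont v p),
    fun s n hn => by simp only [h.mul, hfix n hn], fun F x ε r hr => ?_⟩
  · simpa only [hpv] using h.pd_re p
  · let l : H →L[ℝ] ℝ := ε • ∑ i ∈ F,
      Complex.reCLM.comp (((innerSL ℂ v).comp (σ (x i))).restrictScalars ℝ)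
    have hl : ∀ w, l w = ε * ∑ i ∈ F, (⟪v, σ (x i) w⟫_ℂ).re := fun w => by
      simp [l]
    rw [← hl]
    exact hK (l ⁻¹' Set.Ici r) (isClosed_Ici.preimage l.continuous)
      ((convex_Ici r).linear_preimage l.toLinearMap)
      (fun n hn => by
        change r ≤ l (σ n v)
        rw [hl]
        simpa only [← h.mul, hv, Complex.ofReal_re] using hr n hn) hp

end Pool.Agent.MP_5139aa_an.Cl
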