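import Mathlib
import Pool.Agent.MP_5139aa_an.Cl.Pd

set_option autoImplicit false
set_option linter.unusedSectionVars false

namespace Pool.Agent.MP_5139aa_an.Cl

open Filter Topology Finset
open scoped InnerProductSpace ComplexConjugate

variable {S : Type} [CommMonoid S] [StarMul S] [MetricSpace S] [CompactSpace S]
variable {H : Type} [NormedAddCommGroup H] [InnerProductSpace ℂ H] [CompleteSpace H]

lemma orth {ζ : ℂ} {M : ℕ} (hζ : IsPrimitiveRoot ζ M) (hM : M ≠ 0) {k l : ℕ} (hk : k < M)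
    (hl : l < M) : ∑ j ∈ range M, conj ((ζ ^ j) ^ k) * (ζ ^ j) ^ l =
      if k = l then (M : ℂ) else 0 := by
  have h1 : conj ζ * ζ = 1 := by
    rw [Complex.conj_mul', hζ.norm'_eq_one hM]
    simp
  have h2 : conj (ζ ^ k) * ζ ^ k = 1 := by rw [map_pow, ← mul_pow, h1, one_pow]
  have e : ∀ j, conj ((ζ ^ j) ^ k) * (ζ ^ j) ^ l = (conj (ζ ^ k) * ζ ^ l) ^ j := fun j => by
    simp only [map_pow, mul_pow, ← pow_mul, mul_comm]
  simp only [e]
  split_ifs with h
  · subst h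
    simp [h2, -map_pow]
  · have h3 : conj (ζ ^ k) * ζ ^ l ≠ 1 := fun h4 => h (hζ.pow_inj hk hl (by
      calc ζ ^ k = ζ ^ k * (conj (ζ ^ k) * ζ ^ l) := by rw [h4, mul_one]
        _ = (conj (ζ ^ k) * ζ ^ k) * ζ ^ l := by ring
        _ = ζ ^ l := by rw [h2, one_mul]))
    have h5 : (conj (ζ ^ k) * ζ ^ l) ^ M = 1 := by
      rw [← e, hζ.pow_eq_one]
      simp
    rw [geom_sum_eq h3, h5, sub_self, zero_div]

lemma parseval {ζ : ℂ} {M : ℕ} (hζ : IsPrimitiveRoot ζ M) (hM : M ≠ 0) (x : ℕ → H) :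
    ∑ j ∈ range M, ‖∑ k ∈ range M, (ζ ^ j) ^ k • x k‖ ^ 2 = M * ∑ k ∈ range M, ‖x k‖ ^ 2 := by
  have h1 : ∑ j ∈ range M, ⟪∑ k ∈ range M, (ζ ^ j) ^ k • x k, ∑ k ∈ range M, (ζ ^ j) ^ k • x k⟫_ℂ
      = M * ∑ k ∈ range M, ⟪x k, x k⟫_ℂ := by
    simp only [sum_inner, inner_smul_left]
    rw [sum_comm, mul_sum]
    refine sum_congr rfl fun k hk => ?_
    simp only [inner_sum, inner_smul_right, mul_sum, ← mul_assoc]
    rw [sum_comm]
    simp only [← sum_mul]
    rw [sum_eq_single_of_mem k hk fun l hl hne => by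
      rw [orth hζ hM (mem_range.1 hk) (mem_range.1 hl), if_neg hne.symm, zero_mul],
      orth hζ hM (mem_range.1 hk) (mem_range.1 hk), if_pos rfl]
  have h2 := congrArg Complex.re h1
  have h3 : ∀ y : H, (⟪y, y⟫_ℂ).re = ‖y‖ ^ 2 := fun y => inner_self_eq_norm_sq (𝕜 := ℂ) y
  rw [← Complex.ofReal_natCast, Complex.re_ofReal_mul] at h2
  simpa only [Complex.re_sum, h3] using h2

/-- primitive root of unity of order `n + 1` -/
noncomputable def rt (n : ℕ) : ℂ := Complex.exp (2 * Real.pi * Complex.I / (n + 1 : ℕ))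

lemma rt_prim (n : ℕ) : IsPrimitiveRoot (rt n) (n + 1) :=
  Complex.isPrimitiveRoot_exp _ n.succ_ne_zero

/-- discrete Fourier pieces of the identity -/
noncomputable def dft (σ : S → H →L[ℂ] H) (u : S) (n j : ℕ) : H →L[ℂ] H :=
  ((n + 1 : ℕ) : ℂ)⁻¹ • ∑ k ∈ range (n + 1), (rt n ^ j) ^ k • σ (u ^ k)

variable {σ : S → H →L[ℂ] H} {u : S}

lemma dft_apply (n j : ℕ) (w : H) : dft σ u n j w =
    ((n + 1 : ℕ) : ℂ)⁻¹ • ∑ k ∈ range (n + 1), (rt n ^ j) ^ k • σ (u ^ k) w := by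
  simp [dft]

lemma dft_comm (h : IsRep σ) (n j : ℕ) (s : S) (w : H) :
    dft σ u n j (σ s w) = σ s (dft σ u n j w) := by
  simp only [dft_apply, map_smul, map_sum, h.comm s]

lemma norm_pow_unit (c : Ctx u) (h : IsRep σ) (k : ℕ) (w : H) : ‖σ (u ^ k) w‖ = ‖w‖ :=
  h.norm_of_fix _ _ (by rw [star_pow, ← mul_pow, c.unit, one_pow, h.one])

lemma dft_sum (c : Ctx u) (h : IsRep σ) (n : ℕ) (w : H) :
    ∑ j ∈ range (n + 1), ‖dft σ u n j w‖ ^ 2 = ‖w‖ ^ 2 := by
  simp only [dft_apply, norm_smul, mul_pow, ← mul_sum]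
  rw [parseval (rt_prim n) n.succ_ne_zero]
  simp only [norm_pow_unit c h, sum_const, card_range, nsmul_eq_mul, norm_inv, Complex.norm_natCast]
  field_simp

lemma dft_shift (c : Ctx u) (h : IsRep σ) (n j : ℕ) (w : H) :
    ‖rt n ^ j • dft σ u n j (σ u w) - dft σ u n j w‖ ≤ 2 * ‖w‖ / (n + 1) := by
  have e : rt n ^ j • dft σ u n j (σ u w) - dft σ u n j w =
      ((n + 1 : ℕ) : ℂ)⁻¹ • (σ (u ^ (n + 1)) w - w) := by
    rw [dft_apply, dft_apply, smul_comm, ← smul_sub, smul_sum, ← sum_sub_distrib]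
    congr 1
    have h1 := sum_range_sub (fun k => (rt n ^ j) ^ k • σ (u ^ k) w) (n + 1)
    rw [← pow_mul, mul_comm j, pow_mul, (rt_prim n).pow_eq_one, one_pow, one_smul, pow_zero,
      pow_zero, one_smul, h.one] at h1
    rw [← h1]
    refine sum_congr rfl fun k _ => ?_
    rw [smul_smul, ← h.mul, ← pow_succ, ← pow_succ']
  rw [e, norm_smul, norm_inv, Complex.norm_natCast, mul_comm, ← div_eq_mul_inv]
  push_cast
  refine div_le_div_of_nonneg_right ((norm_sub_le _ _).trans ?_) (by positivity)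
  rw [norm_pow_unit c h]
  linarith

/-- the residual operators -/
noncomputable def rop (σ : S → H →L[ℂ] H) (u : S) (v : H) (n j : ℕ) : H →L[ℂ] H :=
  (ℂ ∙ dft σ u n j v)ᗮ.starProjection.comp (dft σ u n j)

/-- the total residual -/
noncomputable def res (σ : S → H →L[ℂ] H) (u : S) (v : H) (n : ℕ) (w : H) : ℝ :=
  ∑ j ∈ range (n + 1), ‖rop σ u v n j w‖ ^ 2

lemma res_nonneg (v : H) (n : ℕ) (w : H) : 0 ≤ res σ u v n w :=
  sum_nonneg fun _ _ => by positivity

lemma res_le (c : Ctx u) (h : IsRep σ) (v : H) (n : ℕ) (w : H) : res σ u v n w ≤ ‖w‖ ^ 2 := by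
  rw [← dft_sum c h n]
  exact sum_le_sum fun j _ =>
    pow_le_pow_left₀ (norm_nonneg _) (Submodule.norm_starProjection_apply_le _ _) 2

lemma res_add (v : H) (n : ℕ) (w w' : H) :
    res σ u v n (w + w') ≤ 2 * res σ u v n w + 2 * res σ u v n w' := by
  simp only [res, mul_sum, ← sum_add_distrib, map_add]
  refine sum_le_sum fun j _ => ?_
  have h1 := parallelogram_law_with_norm ℂ (rop σ u v n j w) (rop σ u v n j w')
  nlinarith [norm_nonneg (rop σ u v n j w - rop σ u v n j w')]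

lemma res_smul (v : H) (n : ℕ) (a : ℂ) (w : H) :
    res σ u v n (a • w) = ‖a‖ ^ 2 * res σ u v n w := by
  simp only [res, map_smul, norm_smul, mul_pow, mul_sum]

lemma res_self (v : H) (n : ℕ) : res σ u v n v = 0 :=
  sum_eq_zero fun j _ => by
    rw [rop, ContinuousLinearMap.comp_apply, Submodule.starProjection_orthogonal_apply_eq_zero
      (Submodule.mem_span_singleton_self _), norm_zero]
    norm_num

lemma res_shift (c : Ctx u) (h : IsRep σ) (v : H) (n : ℕ) (w : H) :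
    res σ u v n (σ u w) ≤ 2 * res σ u v n w + 8 * ‖w‖ ^ 2 / (n + 1) ∧
    res σ u v n w ≤ 2 * res σ u v n (σ u w) + 8 * ‖w‖ ^ 2 / (n + 1) := by
  have h1 : ∀ j, |‖rop σ u v n j (σ u w)‖ - ‖rop σ u v n j w‖| ≤ 2 * ‖w‖ / (n + 1) := by
    intro j
    have e : ‖rop σ u v n j (σ u w)‖ = ‖rt n ^ j • rop σ u v n j (σ u w)‖ := by
      rw [norm_smul, norm_pow, (rt_prim n).norm'_eq_one n.succ_ne_zero, one_pow, one_mul]
    rw [e]
    refine (abs_norm_sub_norm_le _ _).trans (le_trans ?_ (dft_shift c h n j w))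
    simp only [rop, ContinuousLinearMap.comp_apply]
    rw [← map_smul, ← map_sub]
    exact Submodule.norm_starProjection_apply_le _ _
  have e : 8 * ‖w‖ ^ 2 / (n + 1) = ∑ _j ∈ range (n + 1), 2 * (2 * ‖w‖ / (n + 1)) ^ 2 := by
    simp only [sum_const, card_range, nsmul_eq_mul]
    push_cast
    field_simp
    ring
  have h2 : ∀ a b d : ℝ, |a - b| ≤ d → a ^ 2 ≤ 2 * b ^ 2 + 2 * d ^ 2 := fun a b d hd => by
    have := sq_le_sq' (abs_le.1 hd).1 (abs_le.1 hd).2
    nlinarith [sq_nonneg (a - 2 * b)]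
  simp only [res, e, mul_sum, ← sum_add_distrib]
  exact ⟨sum_le_sum fun j _ => h2 _ _ _ (h1 j),
    sum_le_sum fun j _ => h2 _ _ _ (by rw [abs_sub_comm]; exact h1 j)⟩

lemma res_tendsto (c : Ctx u) (h : IsRep σ) (v : H) (s : S) :
    Tendsto (fun n => res σ u v n (σ s v)) atTop (𝓝 0) := by
  let K : Submodule ℂ H :=
    { carrier := {w | Tendsto (fun n => res σ u v n w) atTop (𝓝 0)}
      add_mem' := fun {a b} ha hb => squeeze_zero (fun n => res_nonneg _ _ _)
        (fun n => res_add v n a b) (by simpa using (ha.const_mul 2).add (hb.const_mul 2))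
      zero_mem' := by simp [res]
      smul_mem' := fun a w hw => by
        simp only [Set.mem_ofPred_eq, res_smul]
        simpa using hw.const_mul (‖a‖ ^ 2) }
  have hK : IsClosed (K : Set H) := by
    refine isClosed_of_closure_subset fun w hw => ?_
    change Tendsto _ _ _
    rw [tendsto_order]
    refine ⟨fun a ha => Eventually.of_forall fun n => ha.trans_le (res_nonneg _ _ _),
      fun ε hε => ?_⟩
    obtain ⟨w', hw', hd⟩ := Metric.mem_closure_iff.1 hw (Real.sqrt (ε / 4)) (by positivity)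
    filter_upwards [(tendsto_order.1 hw').2 (ε / 4) (by positivity)] with n hn
    have h1 := res_add (σ := σ) (u := u) v n w' (w - w')
    have h2 := res_le c h v n (w - w')
    rw [dist_eq_norm, Real.lt_sqrt (norm_nonneg _)] at hd
    rw [add_sub_cancel] at h1
    linarith
  have := hK.completeSpace_coe
  have h0 : ∀ w : H, Tendsto (fun n : ℕ => 8 * ‖w‖ ^ 2 / ((n : ℝ) + 1)) atTop (𝓝 0) := fun w => by
    simpa [div_eq_mul_inv] using
      (tendsto_one_div_add_atTop_nhds_zero_nat (𝕜 := ℝ)).const_mul (8 * ‖w‖ ^ 2)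
  refine c.ind {s | σ s v ∈ K} ?_ ?_ (fun s hs => ?_) (fun s hs => ?_) s
  · have e : {s | σ s v ∈ K} = ⋂ z ∈ Kᗮ, {s | ⟪z, σ s v⟫_ℂ = 0} := by
      ext s
      simp only [Set.mem_ofPred_eq, Set.mem_iInter]
      conv_lhs => rw [← K.orthogonal_orthogonal, Submodule.mem_orthogonal]
    rw [e]
    exact isClosed_biInter fun z _ => isClosed_eq (h.cont z v) continuous_const
  · change Tendsto _ _ _
    simp only [h.one, res_self]
    exact tendsto_const_nhds
  · change Tendsto _ _ _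
    rw [h.mul]
    exact squeeze_zero (fun n => res_nonneg _ _ _) (fun n => (res_shift c h v n _).1)
      (by simpa using (Tendsto.const_mul 2 hs).add (h0 (σ s v)))
  · change Tendsto _ _ _
    refine squeeze_zero (fun n => res_nonneg _ _ _) (fun n => (res_shift c h v n _).2) ?_
    rw [← h.mul, ← mul_assoc, mul_comm u, c.unit, one_mul]
    simpa using (Tendsto.const_mul 2 hs).add (h0 (σ (star u * s) v))

/-- a continuous positive definite minorant of `‖σ s v‖ ^ 2`, almost sharp on a norm compact set -/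
theorem node0 (c : Ctx u) (h : IsRep σ) (v : H) {K : Set S}
    (hK : IsCompact ((fun s => σ s v) '' K)) {η : ℝ} (hη : 0 < η) :
    ∃ φ : S → ℝ, PD φ ∧ Continuous φ ∧ (∀ s, 0 ≤ φ s) ∧ (∀ s, φ s ≤ ‖σ s v‖ ^ 2) ∧
      ∀ s ∈ K, ‖σ s v‖ ^ 2 - η ≤ φ s := by
  obtain ⟨t, htK, htf, hcov⟩ := hK.finite_cover_balls (e := Real.sqrt (η / 4)) (by positivity)
  have h1 : ∀ᶠ n in atTop, ∀ w ∈ t, res σ u v n w < η / 4 := by
    rw [eventually_all_finite htf]
    intro w hw
    obtain ⟨s, -, rfl⟩ := htK hw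
    exact (tendsto_order.1 (res_tendsto c h v s)).2 _ (by positivity)
  obtain ⟨n, hn⟩ := h1.exists
  let φ : S → ℝ := fun s => ∑ j ∈ range (n + 1),
    (‖dft σ u n j v‖ ^ 2)⁻¹ * ‖⟪dft σ u n j v, σ s (dft σ u n j v)⟫_ℂ‖ ^ 2
  have e : ∀ s, φ s = ‖σ s v‖ ^ 2 - res σ u v n (σ s v) := by
    intro s
    rw [← dft_sum c h n, res, ← sum_sub_distrib]
    refine sum_congr rfl fun j _ => ?_
    rw [Submodule.norm_sq_eq_add_norm_sq_starProjection (dft σ u n j (σ s v)) (ℂ ∙ dft σ u n j v),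
      rop, ContinuousLinearMap.comp_apply, add_sub_cancel_right,
      Submodule.starProjection_singleton, dft_comm h, norm_smul, norm_div, RCLike.norm_ofReal,
      abs_of_nonneg (by positivity)]
    by_cases h0 : ‖dft σ u n j v‖ = 0
    · simp [h0]
    · field_simp
  refine ⟨φ, PD.sum _ fun j _ => (h.pd_sq _).smul (by positivity),
    continuous_finsetSum _ fun j _ => continuous_const.mul ((h.cont _ _).norm.pow 2),
    fun s => sum_nonneg fun j _ => by positivity,
    fun s => by rw [e]; linarith [res_nonneg (σ := σ) (u := u) v n (σ s v)], fun s hs => ?_⟩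
  obtain ⟨w, hw, hd⟩ := Set.mem_iUnion₂.1 (hcov ⟨s, hs, rfl⟩)
  have h2 := res_add (σ := σ) (u := u) v n w (σ s v - w)
  have h3 := res_le c h v n (σ s v - w)
  rw [mem_ball_iff_norm, Real.lt_sqrt (norm_nonneg _)] at hd
  rw [add_sub_cancel] at h2
  rw [e]
  linarith [hn w hw]

end Pool.Agent.MP_5139aa_an.Cl
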