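import Mathlib
import Pool.Agent.MP_5139aa_an.Cl.Gns

set_option autoImplicit false
set_option linter.unusedSectionVars false

namespace Pool.Agent.MP_5139aa_an.Cl

open Filter Topology
open scoped InnerProductSpace ComplexOrder ComplexConjugate

variable {S : Type} [CommMonoid S] [StarMul S] [MetricSpace S] [CompactSpace S]
variable {H : Type} [NormedAddCommGroup H] [InnerProductSpace ℂ H] [CompleteSpace H]

lemma IsRep.isClosed_le {σ : S → H →L[ℂ] H} (h : IsRep σ) (w : H) (r : ℝ) :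
    IsClosed {s : S | ‖σ s w‖ ^ 2 ≤ r} := by
  have e : {s : S | ‖σ s w‖ ^ 2 ≤ r} =
      ⋂ z : H, {s : S | 2 * (⟪z, σ s w⟫_ℂ).re - ‖z‖ ^ 2 ≤ r} := by
    ext s
    simp only [Set.mem_ofPred_eq, Set.mem_iInter]
    refine ⟨fun hs z => ?_, fun hs => ?_⟩
    · have h1 : ‖z - σ s w‖ ^ 2 = ‖z‖ ^ 2 - 2 * (⟪z, σ s w⟫_ℂ).re + ‖σ s w‖ ^ 2 :=
        norm_sub_sq (𝕜 := ℂ) _ _
      nlinarith [sq_nonneg ‖z - σ s w‖]
    · have h1 := hs (σ s w)
      have h2 : (⟪σ s w, σ s w⟫_ℂ).re = ‖σ s w‖ ^ 2 := inner_self_eq_norm_sq (𝕜 := ℂ) _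
      linarith
  rw [e]
  exact isClosed_iInter fun z => _root_.isClosed_le
    ((continuous_const.mul (Complex.continuous_re.comp (h.cont z w))).sub continuous_const)
    continuous_const

/-- collapsing a closed ideal to a point gives a factor -/
theorem rees {u : S} (c : Ctx u) (hall : AllFac u) (I : Set S) (hI : IsClosed I)
    (hid : ∀ a, ∀ s ∈ I, a * s ∈ I) :
    ∃ (H' : Type) (_ : NormedAddCommGroup H') (_ : InnerProductSpace ℂ H') (_ : CompleteSpace H')
      (σ : S → H' →L[ℂ] H') (v : H'), IsRep σ ∧ ∀ s, σ s v = 0 ↔ s ∈ I := by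
  rcases I.eq_empty_or_nonempty with rfl | ⟨p, hp⟩
  · exact ⟨ℂ, inferInstance, inferInstance, inferInstance, fun _ => ContinuousLinearMap.id ℂ ℂ, 1,
      ⟨fun _ => rfl, fun _ _ _ => rfl, fun _ _ _ => rfl, fun _ _ => continuous_const,
        fun _ _ => le_rfl⟩, fun s => by simp⟩
  let G : C(S × S, ℝ) := ⟨fun q => Metric.infDist q.1 I * (1 + dist q.1 q.2),
    ((Metric.continuous_infDist_pt I).comp continuous_fst).mul
      (continuous_const.add continuous_dist)⟩
  let Γ : C(S, C(S, ℝ)) := G.curry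
  have hρ : ∀ x, x ∈ I ↔ Metric.infDist x I = 0 := fun x => hI.mem_iff_infDist_zero ⟨p, hp⟩
  have hΓ : ∀ x y, Γ x = Γ y ↔ x = y ∨ (x ∈ I ∧ y ∈ I) := by
    intro x y
    constructor
    · intro hxy
      have h1 : Metric.infDist x I * (1 + dist x x) = Metric.infDist y I * (1 + dist y x) :=
        DFunLike.congr_fun hxy x
      have h2 : Metric.infDist x I * (1 + dist x y) = Metric.infDist y I * (1 + dist y y) :=
        DFunLike.congr_fun hxy y
      rw [dist_self, add_zero, mul_one] at h1 h2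
      rw [dist_comm] at h1
      by_cases hne : x = y
      · exact Or.inl hne
      · have hd : 0 < dist x y := dist_pos.2 hne
        have hx : 0 ≤ Metric.infDist x I := Metric.infDist_nonneg
        have hy : 0 ≤ Metric.infDist y I := Metric.infDist_nonneg
        refine Or.inr ⟨(hρ x).2 ?_, (hρ y).2 ?_⟩ <;> nlinarith
    · rintro (rfl | ⟨hx, hy⟩)
      · rfl
      · ext z
        change Metric.infDist x I * (1 + dist x z) = Metric.infDist y I * (1 + dist y z)
        rw [(hρ x).1 hx, (hρ y).1 hy, zero_mul, zero_mul]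
  have : CompactSpace (Set.range Γ) := isCompact_iff_compactSpace.1 (isCompact_range Γ.continuous)
  let π : S → Set.range Γ := Set.rangeFactorization Γ
  have hπc : Continuous π := Γ.continuous.subtype_mk _
  have hπs : Function.Surjective π := Set.rangeFactorization_surjective
  have hπ : ∀ x y, π x = π y ↔ x = y ∨ (x ∈ I ∧ y ∈ I) := fun x y => by
    rw [← hΓ]
    exact Subtype.ext_iff
  let F : S → Set.range Γ → Set.range Γ := fun a y => π (a * Function.surjInv hπs y)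
  have hF : ∀ a s, F a (π s) = π (a * s) := by
    intro a s
    rcases (hπ _ _).1 (Function.surjInv_eq hπs (π s)) with h1 | ⟨h1, h2⟩
    · simp only [F, h1]
    · exact (hπ _ _).2 (Or.inr ⟨hid _ _ h1, hid _ _ h2⟩)
  have hFc : ∀ a, Continuous (F a) := by
    intro a
    rw [(hπc.isClosedMap.isQuotientMap hπc hπs).continuous_iff]
    have e : F a ∘ π = fun s => π (a * s) := funext (hF a)
    rw [e]
    exact hπc.comp (c.cmul a)
  let T' : Set.range Γ ≃ₜ Set.range Γ :=
    { toFun := F u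
      invFun := F (star u)
      left_inv := fun y => by
        obtain ⟨s, rfl⟩ := hπs y
        rw [hF u s, hF, ← mul_assoc, c.unit, one_mul]
      right_inv := fun y => by
        obtain ⟨s, rfl⟩ := hπs y
        rw [hF (star u) s, hF, ← mul_assoc, mul_comm u, c.unit, one_mul]
      continuous_toFun := hFc u
      continuous_invFun := hFc (star u) }
  have hT : ∀ s, π (u * s) = T' (π s) := fun s => (hF u s).symm
  obtain ⟨K, _, _, _, U, g, hinj, heq, hcont⟩ := hall _ T' π hπc hπs hT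
  have hfix : U (g (π p)) = g (π p) := by
    rw [← heq, ← hT, (hπ _ _).2 (Or.inr ⟨hid u p hp, hp⟩)]
  obtain ⟨H', i1, i2, i3, σ, v, hσ, -, h0⟩ := rep_of_equiv c U (fun s => g (π s) - g (π p))
    (fun s => by rw [map_sub, hfix, hT, heq])
    (fun w => by
      simp only [inner_sub_right]
      exact ((hcont w).comp hπc).sub continuous_const)
  refine ⟨H', i1, i2, i3, σ, v, hσ, fun s => ?_⟩
  rw [h0, sub_eq_zero, hinj.eq_iff, hπ]
  exact ⟨fun h => h.elim (fun h => h ▸ hp) fun h => h.1, fun h => Or.inr ⟨h, hp⟩⟩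

lemma IsRep.ideal {σ : S → H →L[ℂ] H} (h : IsRep σ) (w : H) (r : ℝ) (a : S) :
    ∀ s ∈ {s : S | ‖σ s w‖ ^ 2 ≤ r}, a * s ∈ {s : S | ‖σ s w‖ ^ 2 ≤ r} := by
  intro s hs
  simp only [Set.mem_ofPred_eq, h.mul] at hs ⊢
  exact (pow_le_pow_left₀ (norm_nonneg _) (h.contr _ _) 2).trans hs

theorem neg_reg {u : S} (c : Ctx u) {σ : S → H →L[ℂ] H} (h : IsRep σ) {v0 : H}
    (inj : Function.Injective fun s => σ s v0) (hall : AllFac u) (p : S) :
    p * star p * p = p := by
  obtain ⟨H', _, _, _, τ, v, hτ, h0⟩ :=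
    rees c hall _ (h.isClosed_le v0 (‖σ (star p * p) v0‖ ^ 2)) (h.ideal v0 _)
  have h1 : τ (star p * p) v = 0 := (h0 _).2 (le_refl (‖σ (star p * p) v0‖ ^ 2))
  have h2 : τ p v = 0 := by
    have := hτ.norm_sq p v
    rw [h1, inner_zero_right, Complex.zero_re] at this
    exact norm_eq_zero.1 (pow_eq_zero_iff two_ne_zero |>.1 this)
  have h3 : ‖σ p v0‖ ^ 2 ≤ ‖σ (star p * p) v0‖ ^ 2 := (h0 _).1 h2
  have h4 : ‖σ p v0‖ ≤ ‖σ (star p) (σ p v0)‖ := by
    rw [← h.mul]
    exact le_of_sq_le_sq h3 (norm_nonneg _)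
  have h5 := h.fix_of_norm _ _ h4
  rw [star_star, ← h.mul] at h5
  exact inj h5

section Lawson

variable {K : Type} [NormedAddCommGroup K] [InnerProductSpace ℂ K] [CompleteSpace K]

/-- mass of the event that both records fail at the first failure of the first one -/
noncomputable def bad (σ : S → H →L[ℂ] H) (τ : S → K →L[ℂ] K) : List S → K → H → ℝ
  | [], _, _ => 0
  | e :: L, v, w => ‖w - σ e w‖ ^ 2 * ‖v - τ e v‖ ^ 2 + bad σ τ L v (σ e w)

variable {σ : S → H →L[ℂ] H} {τ : S → K →L[ℂ] K}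

lemma bad_add (hτ : IsRep τ) {e : S} (he : e * e = e) (hs : star e = e) (L : List S) (v : K)
    (w : H) : bad σ τ L (v - τ e v) w + bad σ τ L (τ e v) w = bad σ τ L v w := by
  induction L generalizing w with
  | nil => simp [bad]
  | cons a L ih =>
    have h1 := hτ.pyth he hs (v - τ a v)
    have e1 : v - τ a v - τ e (v - τ a v) = v - τ e v - τ a (v - τ e v) := by
      rw [map_sub, map_sub, hτ.comm e a]
      abel
    have e2 : τ e (v - τ a v) = τ e v - τ a (τ e v) := by rw [map_sub, hτ.comm e a]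
    rw [e1, e2] at h1
    simp only [bad]
    rw [← ih (σ a w), ← h1]
    ring

lemma bad_le (h : IsRep σ) (reg : ∀ s : S, s * star s * s = s) {ε : ℝ} (hε : 0 ≤ ε) (v : K)
    (L : List S) (hL : ∀ e ∈ L, e * e = e ∧ ‖v - τ e v‖ ^ 2 ≤ ε) (w : H) :
    bad σ τ L v w ≤ ε * ‖w‖ ^ 2 := by
  induction L generalizing w with
  | nil => simp only [bad]; positivity
  | cons a L ih =>
    obtain ⟨ha, hv⟩ := hL a List.mem_cons_self
    have h1 := h.pyth ha (star_idem reg ha) w
    have h2 := ih (fun e he => hL e (List.mem_cons_of_mem _ he)) (σ a w)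
    simp only [bad]
    have h3 : ‖w - σ a w‖ ^ 2 * ‖v - τ a v‖ ^ 2 ≤ ‖w - σ a w‖ ^ 2 * ε :=
      mul_le_mul_of_nonneg_left hv (by positivity)
    rw [← h1]
    linarith

lemma le_bad (h : IsRep σ) (hτ : IsRep τ) (reg : ∀ s : S, s * star s * s = s) (L : List S)
    (hL : ∀ e ∈ L, e * e = e) (v : K) (w : H) (r : ℝ)
    (hyp : ∀ x : S, x * x = x → τ x v ≠ 0 → r ≤ ‖σ x w‖ ^ 2) :
    (r - ‖σ L.prod w‖ ^ 2) * ‖v‖ ^ 2 ≤ bad σ τ L v w := by
  induction L generalizing v w r with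
  | nil =>
    simp only [bad, List.prod_nil]
    by_cases hv : v = 0
    · simp [hv]
    · have := hyp 1 (mul_one 1) (by rwa [hτ.one])
      exact mul_nonpos_of_nonpos_of_nonneg (by linarith) (by positivity)
  | cons a L ih =>
    have ha := hL a List.mem_cons_self
    have hs := star_idem reg ha
    have hL' : ∀ e ∈ L, e * e = e := fun e he => hL e (List.mem_cons_of_mem _ he)
    have h1 := ih hL' (τ a v) (σ a w) r fun x hx hne => by
      rw [← h.mul]
      refine hyp _ ?_ (by rwa [hτ.mul])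
      calc x * a * (x * a) = (x * x) * (a * a) := by ac_rfl
        _ = x * a := by rw [hx, ha]
    have h2 := ih hL' (v - τ a v) (σ a w) (r - ‖w - σ a w‖ ^ 2) fun x hx hne => by
      have h3 : τ x v ≠ 0 := fun h0 => hne (by rw [map_sub, hτ.comm, h0, map_zero, sub_zero])
      have h4 := hyp x hx h3
      have h5 := h.pyth ha hs (σ x w)
      have h6 : ‖σ x w - σ a (σ x w)‖ ≤ ‖w - σ a w‖ := by
        rw [h.comm a x, ← map_sub]
        exact h.contr _ _
      have h7 := pow_le_pow_left₀ (norm_nonneg _) h6 2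
      rw [h.comm a x] at h5 h7
      linarith
    have h8 := hτ.pyth ha hs v
    have h9 := bad_add (σ := σ) hτ ha hs L v (σ a w)
    simp only [bad, List.prod_cons]
    rw [mul_comm a, h.mul, ← h8, ← h9]
    linarith

end Lawson

theorem neg_law {u : S} (c : Ctx u) {σ : S → H →L[ℂ] H} (h : IsRep σ) {v0 : H}
    (inj : Function.Injective fun s => σ s v0) (hall : AllFac u) : Law S := by
  have reg := neg_reg c h inj hall
  intro e he V hV
  obtain ⟨V', hV', hVV⟩ := mem_nhdsWithin_iff_exists_mem_nhds_inter.1 hV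
  obtain ⟨ρ, hρ, hball⟩ : ∃ ρ > 0, ∀ x, ‖σ x v0 - σ e v0‖ < ρ → x ∈ V' := by
    have h1 : Tendsto id (comap (fun x => σ x v0) (𝓝 (σ e v0))) (𝓝 e) :=
      h.tendsto_of_weak inj fun z =>
        ((continuous_const.inner continuous_id).tendsto (σ e v0)).comp tendsto_comap
    obtain ⟨t, ht, hsub⟩ := mem_comap.1 (h1 hV')
    obtain ⟨ρ, hρ, hb⟩ := Metric.mem_nhds_iff.1 ht
    exact ⟨ρ, hρ, fun x hx => hsub (hb (mem_ball_iff_norm.2 hx))⟩
  obtain ⟨K, _, _, _, τ, v', hτ, h0⟩ :=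
    rees c hall _ (h.isClosed_le v0 (‖σ e v0‖ ^ 2 - ρ ^ 2 / 8)) (h.ideal v0 _)
  have hv : τ e v' ≠ 0 := fun h1 => by
    have : ‖σ e v0‖ ^ 2 ≤ ‖σ e v0‖ ^ 2 - ρ ^ 2 / 8 := (h0 _).1 h1
    nlinarith
  have hv2 : 0 < ‖τ e v'‖ ^ 2 := pow_pos (norm_pos_iff.2 hv) 2
  set ε : ℝ := ρ ^ 2 / 8 * ‖τ e v'‖ ^ 2 / (‖σ e v0‖ ^ 2 + 1) with hε
  have hε0 : 0 < ε := by positivity
  let B : Set S := {x | x * x = x ∧ ‖σ x v0 - σ e v0‖ < ρ / 2 ∧
    ‖τ e v' - τ x (τ e v')‖ ^ 2 ≤ ε}
  have hB : B ∈ 𝓝[{x : S | x * x = x}] e := by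
    have t0 : Tendsto id (𝓝[{x : S | x * x = x}] e) (𝓝 e) := nhdsWithin_le_nhds
    have t1 := tendsto_idem h reg t0 self_mem_nhdsWithin he v0
    have t2 := tendsto_idem hτ reg t0 self_mem_nhdsWithin he (τ e v')
    rw [← hτ.mul, he] at t2
    have t3 := (tendsto_iff_norm_sub_tendsto_zero.1 t1).eventually
      (gt_mem_nhds (show 0 < ρ / 2 by positivity))
    have t4 := ((tendsto_iff_norm_sub_tendsto_zero.1 t2).pow 2).eventually
      (gt_mem_nhds (show (0 : ℝ) ^ 2 < ε by simpa using hε0))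
    filter_upwards [self_mem_nhdsWithin, t3, t4] with x h1 h2 h3
    exact ⟨h1, h2, by rw [norm_sub_rev]; exact h3.le⟩
  have hprod : ∀ L : List S, (∀ y ∈ L, y * y = y) → L.prod * L.prod = L.prod := by
    intro L hL
    induction L with
    | nil => simp
    | cons a L ih =>
      rw [List.prod_cons]
      calc a * L.prod * (a * L.prod) = (a * a) * (L.prod * L.prod) := by ac_rfl
        _ = _ := by rw [hL a List.mem_cons_self, ih fun y hy => hL y (List.mem_cons_of_mem _ hy)]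
  refine ⟨{x | ∃ a L, (∀ y ∈ a :: L, y ∈ B) ∧ x = (a :: L).prod}, ?_, ?_, ?_⟩
  · filter_upwards [hB] with x hx
    exact ⟨x, [], by simpa using hx, by simp⟩
  · rintro _ ⟨a, L, hL, rfl⟩
    set x := (a :: L).prod with hx
    have hxx : x * x = x := hprod _ fun y hy => (hL y hy).1
    refine hVV ⟨hball _ ?_, hxx⟩
    have ha := hL a List.mem_cons_self
    have hxa : x * a = x := by
      rw [hx, List.prod_cons, mul_comm, ← mul_assoc, ha.1]
    have h1 := le_bad h hτ reg (a :: L) (fun y hy => (hL y hy).1) (τ e v') (σ e v0)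
      (‖σ e v0‖ ^ 2 - ρ ^ 2 / 8) fun y _ hne => by
        rw [← hτ.mul] at hne
        rw [← h.mul]
        exact (not_le.1 fun h2 => hne ((h0 _).2 h2)).le
    have h2 := bad_le (τ := τ) h reg hε0.le (τ e v') (a :: L)
      (fun y hy => ⟨(hL y hy).1, (hL y hy).2.2⟩) (σ e v0)
    have h3 : ε * ‖σ e v0‖ ^ 2 ≤ ρ ^ 2 / 8 * ‖τ e v'‖ ^ 2 := by
      rw [hε, div_mul_eq_mul_div, div_le_iff₀ (by positivity)]
      exact mul_le_mul_of_nonneg_left (by linarith) (by positivity)
    have h4 := le_of_mul_le_mul_right (h1.trans (h2.trans h3)) hv2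
    have h5 := h.pyth hxx (star_idem reg hxx) (σ e v0)
    have h6 : ‖σ e v0 - σ x (σ e v0)‖ ≤ ρ / 2 :=
      le_of_sq_le_sq (by rw [← hx] at h4; nlinarith) (by positivity)
    have h7 : ‖σ x v0 - σ x (σ e v0)‖ < ρ / 2 := by
      have e1 : σ x v0 = σ x (σ a v0) := by rw [← h.mul, hxa]
      rw [e1, ← map_sub]
      exact (h.contr _ _).trans_lt ha.2.1
    calc ‖σ x v0 - σ e v0‖ = ‖(σ x v0 - σ x (σ e v0)) - (σ e v0 - σ x (σ e v0))‖ := by
          congr 1; abel
      _ ≤ _ := norm_sub_le _ _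
      _ < ρ := by linarith
  · rintro _ ⟨a, L, hL, rfl⟩ _ ⟨b, M, hM, rfl⟩
    refine ⟨a, L ++ b :: M, fun y hy => ?_, by rw [← List.cons_append, List.prod_append]⟩
    rw [← List.cons_append, List.mem_append] at hy
    exact hy.elim (hL y) (hM y)

end Pool.Agent.MP_5139aa_an.Cl
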