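import Mathlib
import Pool.Agent.MP_5139aa_an.Cl.Neg

set_option autoImplicit false
set_option linter.unusedSectionVars false

namespace Pool.Agent.MP_5139aa_an.Cl

open Filter Topology
open scoped InnerProductSpace

variable {S : Type} [CommMonoid S] [StarMul S] [MetricSpace S] [CompactSpace S]
variable {H : Type} [NormedAddCommGroup H] [InnerProductSpace ℂ H] [CompleteSpace H]
variable {Y : Type} [MetricSpace Y]

/-- elements that act isometrically below `a` -/
def Up (a : S) : Set S := {s | star s * s * a = a}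

/-- projections below which the whole fibre acts isometrically -/
def Mi (π : S → Y) (a : S) : Prop := a * a = a ∧ star a = a ∧ ∀ s, π s = π a → s ∈ Up a

/-- way below -/
def LL (π : S → Y) (a b : S) : Prop := Mi π a ∧ Mi π b ∧ b ∈ interior (Up a)

lemma up_mono {a b : S} (hab : b * a = a) : Up b ⊆ Up a := fun s hs => by
  change star s * s * a = a
  rw [← hab, ← mul_assoc, hs]

lemma mem_up {e a : S} (he : e * e = e) (hs : star e = e) : e ∈ Up a ↔ e * a = a := by
  change star e * e * a = a ↔ _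
  rw [hs, he]

namespace IsRep

variable {σ : S → H →L[ℂ] H} (h : IsRep σ) {v0 : H} (inj : Function.Injective fun s => σ s v0)
include h

lemma norm_up {a s : S} (hs : s ∈ Up a) : ‖σ s (σ a v0)‖ = ‖σ a v0‖ :=
  h.norm_of_fix _ _ (by rw [← h.mul, hs])

lemma tendsto_up {ι : Type*} {l : Filter ι} {x : ι → S} {s a : S} (hx : Tendsto x l (𝓝 s))
    (hs : s ∈ Up a) : Tendsto (fun i => σ (x i) (σ a v0)) l (𝓝 (σ s (σ a v0))) :=
  h.tendsto_norm _ (g := fun _ => ‖σ a v0‖ ^ 2) hx
    (Eventually.of_forall fun _ => pow_le_pow_left₀ (norm_nonneg _) (h.contr _ _) 2)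
    (by rw [h.norm_up hs]; exact tendsto_const_nhds)

include inj

lemma up_of_norm {a s : S} (hs : ‖σ a v0‖ ≤ ‖σ s (σ a v0)‖) : s ∈ Up a := by
  have h1 := h.fix_of_norm s _ hs
  rw [← h.mul] at h1
  exact inj h1

lemma up_div {a x y : S} (hxy : x * y ∈ Up a) : y ∈ Up a :=
  h.up_of_norm inj (by rw [← h.norm_up hxy, h.mul x y]; exact h.contr _ _)

lemma tendsto_abs (hc : Continuous (star : S → S)) {s b : S} (hs : s ∈ Up b) :
    Tendsto (fun x => star x * x * b) (𝓝 s) (𝓝 b) := by
  have h1 := h.tendsto_up (v0 := v0) tendsto_id hs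
  simp only [← h.mul] at h1
  have h2 := h.tendsto_mul inj (hc.tendsto s) h1
  simp only [← mul_assoc, id] at h2
  rwa [hs] at h2

/-- a closed subsemigroup acts isometrically on an element of least norm -/
lemma exists_least {A : Set S} (hA : IsClosed A) (hne : A.Nonempty)
    (hmul : ∀ x ∈ A, ∀ y ∈ A, x * y ∈ A) : ∃ m ∈ A, A ⊆ Up m := by
  have hl : LowerSemicontinuous fun s => ‖σ s v0‖ ^ 2 :=
    lowerSemicontinuous_iff_isClosed_preimage.2 fun r => h.isClosed_le v0 r
  obtain ⟨m, hm, hmin⟩ := (hl.lowerSemicontinuousOn A).exists_isMinOn hne hA.isCompact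
  refine ⟨m, hm, fun x hx => h.up_of_norm inj (le_of_sq_le_sq ?_ (norm_nonneg _))⟩
  rw [← h.mul]
  exact hmin (hmul x hx m hm)

/-- a limit of projections that is isometric below `b` fixes `b` -/
lemma fix_of_pos {p b : S} (hs : star p = p) (hp : ∀ w, 0 ≤ (⟪w, σ p w⟫_ℂ).re) (hb : p ∈ Up b) :
    p * b = b := by
  have h3 : p * (p * b) = b := by
    have : star p * p * b = b := hb
    rwa [hs, mul_assoc] at this
  have h1 : σ p (σ (p * b) v0 - σ b v0) = -(σ (p * b) v0 - σ b v0) := by
    rw [map_sub, ← h.mul, ← h.mul, h3, neg_sub]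
  have h2 := hp (σ (p * b) v0 - σ b v0)
  rw [h1, inner_neg_right, Complex.neg_re] at h2
  have h4 : (⟪σ (p * b) v0 - σ b v0, σ (p * b) v0 - σ b v0⟫_ℂ).re =
      ‖σ (p * b) v0 - σ b v0‖ ^ 2 := inner_self_eq_norm_sq (𝕜 := ℂ) _
  rw [h4] at h2
  have h5 : ‖σ (p * b) v0 - σ b v0‖ = 0 := by nlinarith [norm_nonneg (σ (p * b) v0 - σ b v0)]
  exact inj (sub_eq_zero.1 (norm_eq_zero.1 h5))

end IsRep

lemma abs_proj {m : S} (hm : m ∈ Up m) :
    star m * m * (star m * m) = star m * m ∧ star (star m * m) = star m * m ∧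
      Up m ⊆ Up (star m * m) := by
  refine ⟨?_, by rw [star_mul, star_star], fun s hs => ?_⟩
  · calc star m * m * (star m * m) = star m * (star m * m * m) := by ac_rfl
      _ = star m * m := by rw [hm]
  · change star s * s * (star m * m) = star m * m
    calc star s * s * (star m * m) = star m * (star s * s * m) := by ac_rfl
      _ = star m * m := by rw [hs]

lemma cong2 {π : S → Y} (cong : ∀ a s t, π s = π t → π (a * s) = π (a * t)) {s s' t t' : S}
    (h1 : π s = π s') (h2 : π t = π t') : π (s * t) = π (s' * t') := by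
  rw [cong s _ _ h2, mul_comm s, cong t' _ _ h1, mul_comm]

/-- every idempotent fibre contains a least projection -/
lemma exists_mi {σ : S → H →L[ℂ] H} (h : IsRep σ) {v0 : H}
    (inj : Function.Injective fun s => σ s v0) {π : S → Y} (cπ : Continuous π)
    (cong : ∀ a s t, π s = π t → π (a * s) = π (a * t)) {e : S} (he : π (e * e) = π e) :
    ∃ a, Mi π a ∧ π a = π e := by
  obtain ⟨m, hm, hup⟩ := h.exists_least inj (A := {x | π x = π e})
    (isClosed_eq cπ continuous_const) ⟨e, rfl⟩ fun x hx y hy => (cong2 cong hx hy).trans he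
  obtain ⟨h1, h2, h3⟩ := abs_proj (hup hm)
  have h4 : π (star m * m) = π e := by
    have h5 : π (m * m) = π m := (cong2 cong hm hm).trans (he.trans hm.symm)
    rw [← cong (star m) _ _ h5, ← mul_assoc, hup hm, hm]
  exact ⟨_, ⟨h1, h2, fun s hs => h3 (hup (hs.trans h4))⟩, h4⟩

/-- if the quotient is regular, the involution induces its inverse -/
lemma reg_of_regular {σ : S → H →L[ℂ] H} (h : IsRep σ) {v0 : H}
    (inj : Function.Injective fun s => σ s v0) {π : S → Y} (cπ : Continuous π)
    (cong : ∀ a s t, π s = π t → π (a * s) = π (a * t)) {s r : S} (hr : π (s * r * s) = π s) :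
    π (s * star s * s) = π s := by
  obtain ⟨a, ha, hae⟩ := exists_mi h inj cπ cong (e := r * s) (by
    rw [show r * s * (r * s) = r * (s * r * s) by ac_rfl, cong r _ _ hr])
  have h1 : s ∈ Up a := h.up_div inj (ha.2.2 _ hae.symm)
  have h2 : π (s * a) = π s := by rw [cong s _ _ hae, ← mul_assoc, hr]
  rw [← cong (s * star s) _ _ h2, ← h2]
  congr 1
  calc s * star s * (s * a) = s * (star s * s * a) := by ac_rfl
    _ = s * a := by rw [h1]

/-- standing assumptions of the positive direction -/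
structure Pos (u : S) (σ : S → H →L[ℂ] H) (v0 : H) (π : S → Y) : Prop where
  c : Ctx u
  h : IsRep σ
  inj : Function.Injective fun s => σ s v0
  cπ : Continuous π
  cong : ∀ a s t, π s = π t → π (a * s) = π (a * t)
  reg : ∀ s : S, π (s * star s * s) = π s
  law : ∀ b : S, b * b = b → star b = b → ∀ ε > 0, ∃ B : Set S,
    (∀ x ∈ B, ∀ y ∈ B, x * y ∈ B) ∧ (∀ x ∈ B, star x ∈ B) ∧ (∀ x ∈ B, dist (π x) (π b) ≤ ε) ∧
    ∀ᶠ x in 𝓝 b, star x * x * b ∈ B

namespace Pos

variable {u : S} {σ : S → H →L[ℂ] H} {v0 : H} {π : S → Y} (P : Pos u σ v0 π)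
include P

lemma cong2 {s s' t t' : S} (h1 : π s = π s') (h2 : π t = π t') : π (s * t) = π (s' * t') :=
  Cl.cong2 P.cong h1 h2

lemma reg' (s : S) : π (star s * s * star s) = π (star s) := by
  simpa only [star_star] using P.reg (star s)

lemma cstar {s t : S} (h : π s = π t) : π (star s) = π (star t) := by
  have key : ∀ s t : S, π s = π t → π (star s) = π (star s * star t * s) := by
    intro s t h
    calc π (star s) = π (star s * star s * s) := by rw [mul_right_comm, P.reg']
      _ = π (star s * star s * (t * star t * t)) := P.cong _ _ _ (h.trans (P.reg t).symm)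
      _ = π (star s * star s * star t * (t * t)) := by congr 1; ac_rfl
      _ = π (star s * star s * star t * (s * s)) := P.cong _ _ _ (P.cong2 h.symm h.symm)
      _ = π ((star s * s * star s) * (star t * s)) := by congr 1; ac_rfl
      _ = _ := by rw [P.cong2 (P.reg' s) rfl, mul_assoc]
  rw [key s t h, key t s h.symm, mul_comm (star t)]
  exact P.cong _ _ _ h

lemma abs_idem (s : S) : π (star s * s * (star s * s)) = π (star s * s) := by
  rw [show star s * s * (star s * s) = star s * (s * star s * s) by ac_rfl]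
  exact P.cong _ _ _ (P.reg s)

lemma exists_mi {e : S} (he : π (e * e) = π e) : ∃ a, Mi π a ∧ π a = π e :=
  Cl.exists_mi P.h P.inj P.cπ P.cong he

lemma up_inv {a s t : S} (ha : Mi π a) (hs : s ∈ Up a) (h : π s = π t) : t ∈ Up a := by
  have h1 : π (star t * a * t) = π a := by
    rw [mul_right_comm, P.cong2 (P.cong2 (P.cstar h.symm) h.symm) rfl, hs]
  exact P.h.up_div P.inj (ha.2.2 _ h1)

lemma up_int {a c : S} (h : c ∈ interior (Up a)) : Up c ⊆ interior (Up a) := by
  intro s hs
  rw [mem_interior_iff_mem_nhds] at h ⊢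
  filter_upwards [P.h.tendsto_abs P.inj P.c.cstar hs h] with x hx
  refine P.h.up_div P.inj (x := star x * c) ?_
  rwa [mul_right_comm]

lemma ll_le {a b : S} (h : LL π a b) : b * a = a :=
  (mem_up h.2.1.1 h.2.1.2.1).1 (interior_subset h.2.2)

lemma ll_trans {a b c : S} (h1 : LL π a b) (h2 : LL π b c) : LL π a c :=
  ⟨h1.1, h2.2.1, P.up_int h1.2.2 (interior_subset h2.2.2)⟩

/-- approximation from way below, the only use of small semilattices -/
lemma exists_ll {b : S} (hb : Mi π b) {V : Set S} (hV : V ∈ 𝓝 b) : ∃ a ∈ V, LL π a b := by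
  have key : ∀ n : ℕ, ∃ a : S, dist (π a) (π b) ≤ 1 / ((n : ℝ) + 1) ∧ LL π a b := by
    intro n
    obtain ⟨B, h1, h2, h3, h4⟩ := P.law b hb.1 hb.2.1 (1 / ((n : ℝ) + 1)) (by positivity)
    have hmul : ∀ x ∈ closure B, ∀ y ∈ closure B, x * y ∈ closure B := fun x hx y hy =>
      isClosed_closure.closure_subset (map_mem_closure (P.c.cmul x) hy fun z hz => by
        rw [mul_comm]
        exact map_mem_closure (P.c.cmul z) hx fun t ht => h1 z hz t ht)
    obtain ⟨m, hm, hup⟩ := P.h.exists_least P.inj isClosed_closure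
      ⟨_, subset_closure h4.self_of_nhds⟩ hmul
    obtain ⟨g1, g2, g3⟩ := abs_proj (hup hm)
    have g4 : star m * m ∈ closure B := hmul _ (map_mem_closure P.c.cstar hm h2) _ hm
    obtain ⟨a, ha, haw⟩ := P.exists_mi (P.abs_idem m)
    refine ⟨a, ?_, ha, hb, mem_interior_iff_mem_nhds.2 ?_⟩
    · rw [haw]
      exact closure_minimal (t := {x | dist (π x) (π b) ≤ 1 / ((n : ℝ) + 1)}) h3
        (isClosed_le (P.cπ.dist continuous_const) continuous_const) g4
    · filter_upwards [h4] with x hx
      refine P.h.up_div P.inj (x := star x * b) ?_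
      rw [mul_right_comm]
      exact up_mono ((mem_up g1 g2).1 (ha.2.2 _ haw.symm)) (g3 (hup (subset_closure hx)))
  choose a ha hll using key
  obtain ⟨m, φ, hφ, hm⟩ := CompactSpace.tendsto_subseq a
  have hw0 : Tendsto (fun n => π (a n)) atTop (𝓝 (π b)) := tendsto_iff_dist_tendsto_zero.2
    (squeeze_zero (fun _ => dist_nonneg) ha tendsto_one_div_add_atTop_nhds_zero_nat)
  have h1 : π m = π b :=
    tendsto_nhds_unique ((P.cπ.tendsto m).comp hm) (hw0.comp hφ.tendsto_atTop)
  have h2 : b * m = m := tendsto_nhds_unique (((P.c.cmul b).tendsto m).comp hm)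
    (hm.congr fun n => (P.ll_le (hll _)).symm)
  have h3 : star m = m := tendsto_nhds_unique ((P.c.cstar.tendsto m).comp hm)
    (hm.congr fun n => (hll _).1.2.1.symm)
  have h4 : ∀ w, 0 ≤ (⟪w, σ m w⟫_ℂ).re := fun w => ge_of_tendsto'
    (((Complex.continuous_re.comp (P.h.cont w w)).tendsto m).comp hm) fun n => by
      simp only [Function.comp_apply]
      rw [← P.h.norm_sq_idem (hll _).1.1 (hll _).1.2.1]
      positivity
  have h5 : m = b := by rw [← h2, mul_comm, P.h.fix_of_pos P.inj h3 h4 (hb.2.2 m h1)]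
  rw [h5] at hm
  obtain ⟨n, hn⟩ := (hm.eventually hV).exists
  exact ⟨_, hn, hll _⟩

lemma ll_interp {a b : S} (h : LL π a b) : ∃ c, LL π a c ∧ LL π c b := by
  obtain ⟨c, hc, hcb⟩ := P.exists_ll h.2.1 (isOpen_interior.mem_nhds h.2.2)
  exact ⟨c, ⟨h.1, hcb.1, hc⟩, hcb⟩

end Pos

/-- dyadic chain of an interpolating transitive relation -/
lemma chain {α : Type} (r : α → α → Prop) (htr : ∀ a b c, r a b → r b c → r a c)
    (hint : ∀ a b, r a b → ∃ c, r a c ∧ r c b) {a b : α} (hab : r a b) :
    ∃ c : ℕ → ℕ → α, c 0 0 = a ∧ c 0 1 = b ∧ (∀ n k i, c (n + k) (2 ^ k * i) = c n i) ∧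
      ∀ n i j, i < j → j ≤ 2 ^ n → r (c n i) (c n j) := by
  have h1 : ∀ a b : α, ∃ c, r a b → r a c ∧ r c b := fun a b => by
    by_cases h : r a b
    · obtain ⟨c, hc⟩ := hint a b h
      exact ⟨c, fun _ => hc⟩
    · exact ⟨a, fun h' => absurd h' h⟩
  choose mid hmid using h1
  let c : ℕ → ℕ → α := fun n => Nat.rec (fun i => if i = 0 then a else b)
    (fun _ d i => if i % 2 = 0 then d (i / 2) else mid (d (i / 2)) (d (i / 2 + 1))) n
  have he : ∀ n i, c (n + 1) (2 * i) = c n i := fun n i => by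
    change (if 2 * i % 2 = 0 then c n (2 * i / 2) else _) = _
    rw [if_pos (by omega), show 2 * i / 2 = i by omega]
  have ho : ∀ n i, c (n + 1) (2 * i + 1) = mid (c n i) (c n (i + 1)) := fun n i => by
    change (if (2 * i + 1) % 2 = 0 then _
      else mid (c n ((2 * i + 1) / 2)) (c n ((2 * i + 1) / 2 + 1))) = _
    rw [if_neg (by omega), show (2 * i + 1) / 2 = i by omega]
  have hs : ∀ n i, i < 2 ^ n → r (c n i) (c n (i + 1)) := by
    intro n
    induction n with
    | zero =>
      intro i hi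
      obtain rfl : i = 0 := by omega
      exact hab
    | succ n ih =>
      intro i hi
      rw [pow_succ] at hi
      obtain ⟨j, rfl | rfl⟩ := Nat.even_or_odd' i
      · rw [he, ho]
        exact (hmid _ _ (ih j (by omega))).1
      · rw [ho, show 2 * j + 1 + 1 = 2 * (j + 1) by ring, he]
        exact (hmid _ _ (ih j (by omega))).2
  refine ⟨c, rfl, rfl, fun n k i => ?_, fun n i j hij hj => ?_⟩
  · induction k with
    | zero => simp
    | succ k ih => rw [← add_assoc, pow_succ', mul_assoc, he, ih]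
  · induction j, hij using Nat.le_induction with
    | base => exact hs n i (by omega)
    | succ j hij ih => exact htr _ _ _ (ih (by omega)) (hs n j (by omega))

end Pool.Agent.MP_5139aa_an.Cl
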