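import Mathlib
import Pool.Agent.MP_5139aa_an.Cl.Order
import Pool.Agent.MP_5139aa_an.Cl.Dft

set_option autoImplicit false
set_option linter.unusedSectionVars false

namespace Pool.Agent.MP_5139aa_an.Cl

open Filter Topology
open scoped InnerProductSpace

variable {S : Type} [CommMonoid S] [StarMul S] [MetricSpace S] [CompactSpace S]
variable {H : Type} [NormedAddCommGroup H] [InnerProductSpace ℂ H] [CompleteSpace H]
variable {Y : Type} [MetricSpace Y]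

/-- the fibre group at a least idempotent -/
def Nb (π : S → Y) (a : S) : Set S := {n | π n = π a ∧ n * a = n}

/-- defect of `s` at the idempotent `a` -/
noncomputable def del (σ : S → H →L[ℂ] H) (v0 : H) (a s : S) : ℝ :=
  ‖σ a v0‖ ^ 2 - ‖σ s (σ a v0)‖ ^ 2

lemma up_mul {a s t : S} (hs : s ∈ Up a) (ht : t ∈ Up a) : s * t ∈ Up a := by
  change star (s * t) * (s * t) * a = a
  calc star (s * t) * (s * t) * a = star s * s * (star t * t * a) := by rw [star_mul]; ac_rfl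
    _ = a := by rw [ht, hs]

namespace Pos

variable {u : S} {σ : S → H →L[ℂ] H} {v0 : H} {π : S → Y} (P : Pos u σ v0 π)
include P

lemma del_nonneg (a s : S) : 0 ≤ del σ v0 a s :=
  sub_nonneg.2 (pow_le_pow_left₀ (norm_nonneg _) (P.h.contr _ _) 2)

lemma del_mono {a b : S} (ha : Mi π a) (hab : b * a = a) (s : S) :
    del σ v0 a s ≤ del σ v0 b s := by
  have e : σ a v0 = σ a (σ b v0) := by rw [← P.h.mul, mul_comm, hab]
  have h1 := P.h.pyth ha.1 ha.2.1 (σ b v0)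
  have h2 := P.h.pyth ha.1 ha.2.1 (σ s (σ b v0))
  rw [P.h.comm a s, ← map_sub] at h2
  have h3 := pow_le_pow_left₀ (norm_nonneg _) (P.h.contr s (σ b v0 - σ a (σ b v0))) 2
  rw [del, del, e]
  linarith

lemma del_pos {a s : S} (hs : s ∉ Up a) : 0 < del σ v0 a s :=
  sub_pos.2 (not_le.1 fun h => hs (P.h.up_of_norm P.inj (le_of_sq_le_sq h (norm_nonneg _))))

lemma nb_mul {a : S} (ha : Mi π a) : ∀ m ∈ Nb π a, ∀ n ∈ Nb π a, m * n ∈ Nb π a :=
  fun m hm n hn => ⟨by rw [P.cong2 hm.1 hn.1, ha.1], by rw [mul_assoc, hn.2]⟩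

lemma nb_star {a : S} (ha : Mi π a) : ∀ n ∈ Nb π a, star n ∈ Nb π a := fun n hn =>
  ⟨by rw [P.cstar hn.1, ha.2.1], by
    have := congrArg star hn.2
    rwa [star_mul, ha.2.1, mul_comm] at this⟩

lemma nb_compact (a : S) : IsCompact (Nb π a) :=
  ((isClosed_eq P.cπ continuous_const).inter
    (isClosed_eq (by simpa only [mul_comm] using P.c.cmul a) continuous_id)).isCompact

lemma nb_up {a n : S} (ha : Mi π a) (hn : n ∈ Nb π a) : n ∈ Up a :=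
  ha.2.2 n hn.1

/-- averaging over the fibre group -/
lemma avg_nb {a : S} (ha : Mi π a) {φ : S → ℝ} (hφ : PD φ) (hc : Continuous φ) :
    ∃ ψ : S → ℝ, PD ψ ∧ Continuous ψ ∧ (∀ s ∈ Up a, ∀ t, π s = π t → ψ s = ψ t) ∧
      (∀ s r, (∀ n ∈ Nb π a, r ≤ φ (s * n)) → r ≤ ψ s) ∧
      (∀ s r, (∀ n ∈ Nb π a, φ (s * n) ≤ r) → ψ s ≤ r) ∧ (∀ s, ψ (s * a) = ψ s) ∧
      ∀ (F : Finset S) (r : ℝ), (∀ m ∈ F, m ∈ Nb π a) →
        (∀ n ∈ Nb π a, r ≤ ∑ m ∈ F, φ (star m * n)) → r ≤ F.card * ψ a := by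
  have haa : a ∈ Nb π a := ⟨rfl, ha.1⟩
  obtain ⟨ψ, h1, h2, h3, h4⟩ := avg P.c hφ hc ⟨a, haa⟩ (P.nb_mul ha) (P.nb_star ha)
  refine ⟨ψ, h1, h2, fun s hs t hst => ?_, fun s r hr => ?_, fun s r hr => ?_,
    fun s => h3 s a haa, fun F r hF hr => ?_⟩
  · have hn : star s * t * a ∈ Nb π a :=
      ⟨by rw [P.cong2 (P.cong _ _ _ hst.symm) rfl, hs], by rw [mul_assoc, ha.1]⟩
    have e : s * (star s * t * a) = t * a := by
      calc s * (star s * t * a) = t * (star s * s * a) := by ac_rfl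
        _ = t * a := by rw [hs]
    rw [← h3 s _ hn, e, h3 t a haa]
  · simpa using h4 {s} id 1 r (by simpa using hr)
  · simpa using h4 {s} id (-1) (-r) (by simpa using hr)
  · have h5 := h4 F star 1 r (by simpa using hr)
    rw [one_mul, Finset.sum_congr rfl (g := fun _ => ψ a) fun m hm => by
      rw [← one_mul (star m), h3 1 _ (P.nb_star ha m (hF m hm)), ← h3 1 a haa, one_mul]] at h5
    simpa using h5

theorem node {a : S} (ha : Mi π a) {K : Set S} (hK : IsCompact K) (hKa : K ⊆ Up a) {η : ℝ}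
    (hη : 0 < η) : ∃ ν : S → ℝ, PD ν ∧ Continuous ν ∧ (∀ s, 0 ≤ ν s) ∧
      (∀ s, ν s ≤ 1 - (1 + ‖v0‖ ^ 2)⁻¹ * del σ v0 a s) ∧ (∀ s ∈ K, 1 - η ≤ ν s) ∧
      ∀ s ∈ Up a, ∀ t, π s = π t → ν s = ν t := by
  have hK1 : IsCompact ((fun p : S × S => p.1 * p.2) '' (K ×ˢ Nb π a)) := by
    refine (hK.prod (P.nb_compact a)).image_of_continuousOn fun p hp => ?_
    have t1 : Tendsto Prod.fst (𝓝[K ×ˢ Nb π a] p) (𝓝 p.1) :=
      continuous_fst.continuousWithinAt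
    have t2 : Tendsto Prod.snd (𝓝[K ×ˢ Nb π a] p) (𝓝 p.2) :=
      continuous_snd.continuousWithinAt
    have t3 := P.h.tendsto_up (v0 := v0) t2 (P.nb_up ha hp.2)
    rw [← P.h.mul, hp.2.2] at t3
    refine P.h.tendsto_mul P.inj t1 (t3.congr' ?_)
    filter_upwards [self_mem_nhdsWithin] with q hq
    rw [← P.h.mul, hq.2.2]
  have hK2 : (fun p : S × S => p.1 * p.2) '' (K ×ˢ Nb π a) ⊆ Up a := by
    rintro _ ⟨p, hp, rfl⟩
    exact up_mul (hKa hp.1) (P.nb_up ha hp.2)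
  obtain ⟨φ, h1, h2, h3, h4, h5⟩ := node0 P.c P.h (σ a v0)
    (hK1.image_of_continuousOn fun s hs => P.h.tendsto_up nhdsWithin_le_nhds (hK2 hs)) hη
  set κ : ℝ := (1 + ‖v0‖ ^ 2)⁻¹ with hκ
  have hκ0 : 0 < κ := by positivity
  have hκ1 : κ * (1 + ‖v0‖ ^ 2) = 1 := inv_mul_cancel₀ (by positivity)
  have hv : ‖σ a v0‖ ^ 2 ≤ ‖v0‖ ^ 2 := pow_le_pow_left₀ (norm_nonneg _) (P.h.contr _ _) 2
  have hc0 : 0 ≤ 1 - κ * ‖σ a v0‖ ^ 2 := by nlinarith
  obtain ⟨ν, g1, g2, g3, g4, g5, -⟩ := P.avg_nb ha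
    (φ := fun s => (1 - κ * ‖σ a v0‖ ^ 2) + κ * φ s) ((PD.const hc0).add (h1.smul hκ0.le))
    (continuous_const.add (continuous_const.mul h2))
  refine ⟨ν, g1, g2, fun s => g4 s 0 fun n _ => add_nonneg hc0 (mul_nonneg hκ0.le (h3 _)),
    fun s => g5 s _ fun n _ => ?_, fun s hs => g4 s _ fun n hn => ?_, g3⟩
  · have h6 : ‖σ (s * n) (σ a v0)‖ ^ 2 ≤ ‖σ s (σ a v0)‖ ^ 2 := by
      rw [mul_comm, P.h.mul]
      exact pow_le_pow_left₀ (norm_nonneg _) (P.h.contr _ _) 2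
    rw [del]
    nlinarith [h4 (s * n)]
  · have h6 := h5 (s * n) ⟨(s, n), ⟨hs, hn⟩, rfl⟩
    rw [P.h.norm_up (up_mul (hKa hs) (P.nb_up ha hn))] at h6
    have h7 : κ ≤ 1 := by nlinarith [sq_nonneg ‖v0‖]
    nlinarith

theorem psi {a x : S} (ha : Mi π a) (hx : π (x * a) ≠ π a) :
    ∃ ψ : S → ℝ, PD ψ ∧ Continuous ψ ∧ 0 < ψ a ∧ ψ x ≤ ψ a / 4 ∧ (∀ s, ψ (s * a) = ψ s) ∧
      ∀ s ∈ Up a, ∀ t, π s = π t → ψ s = ψ t := by
  set v := σ a v0 with hv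
  set κ : ℝ := (1 + 2 * ‖v‖ ^ 2)⁻¹ with hκ
  have hκ0 : 0 < κ := by positivity
  have hκ1 : κ * (1 + 2 * ‖v‖ ^ 2) = 1 := inv_mul_cancel₀ (by positivity)
  let χ : S → ℝ := fun s => (1 - κ * ‖v‖ ^ 2) + κ * (⟪v, σ s v⟫_ℂ).re
  have hχp : PD χ := (PD.const (by nlinarith [sq_nonneg ‖v‖])).add ((P.h.pd_re v).smul hκ0.le)
  have hχc : Continuous χ :=
    continuous_const.add (continuous_const.mul (Complex.continuous_re.comp (P.h.cont v v)))
  have hχ0 : ∀ s, 0 ≤ χ s := fun s => by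
    have h1 : |(⟪v, σ s v⟫_ℂ).re| ≤ ‖v‖ * ‖v‖ := (Complex.abs_re_le_norm _).trans
      ((norm_inner_le_norm _ _).trans (mul_le_mul_of_nonneg_left (P.h.contr _ _) (norm_nonneg _)))
    have h2 := (abs_le.1 h1).1
    simp only [χ]
    nlinarith
  obtain ⟨n0, hn0, hmax⟩ := (P.nb_compact a).exists_isMaxOn ⟨a, rfl, ha.1⟩
    (hχc.comp (P.c.cmul x)).continuousOn
  set θ := χ (x * n0) with hθ
  have hθ1 : θ < 1 := by
    by_contra h
    have h1 : ‖v‖ ^ 2 ≤ (⟪v, σ (x * n0) v⟫_ℂ).re := by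
      simp only [hθ, χ, not_lt] at h
      nlinarith
    have h2 := P.h.fix_of_re _ _ h1
    rw [hv, ← P.h.mul] at h2
    have h3 : x * n0 * a = a := P.inj h2
    rw [mul_assoc, hn0.2] at h3
    exact hx (by rw [P.cong x _ _ hn0.1.symm, h3])
  have hθ0 : 0 ≤ θ := hχ0 _
  obtain ⟨F, hF, hcov⟩ := (P.nb_compact a).elim_nhds_subcover
    (fun m => {n | (θ + 1) / 2 < χ (star m * n)}) fun m hm =>
      (isOpen_lt continuous_const (hχc.comp (P.c.cmul _))).mem_nhds (by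
        have h1 : σ (star m * m) v = v := by rw [hv, ← P.h.mul, P.nb_up ha hm]
        have h2 : (⟪v, v⟫_ℂ).re = ‖v‖ ^ 2 := inner_self_eq_norm_sq (𝕜 := ℂ) v
        simp only [Set.mem_ofPred_eq, Function.comp_apply, χ, h1, h2]
        linarith)
  obtain ⟨k, hk⟩ := exists_pow_lt_of_lt_one (x := 1 / (4 * ((F.card : ℝ) + 1)))
    (y := θ / ((θ + 1) / 2)) (by positivity) (by rw [div_lt_one (by positivity)]; linarith)
  obtain ⟨ψ, g1, g2, g3, -, g5, g7, g6⟩ := P.avg_nb ha (hχp.pow k) (hχc.pow k)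
  have h1 : ψ x ≤ θ ^ k := g5 x _ fun n hn => pow_le_pow_left₀ (hχ0 _) (hmax hn) k
  have h2 : ((θ + 1) / 2) ^ k ≤ F.card * ψ a := g6 F _ hF fun n hn => by
    obtain ⟨m, hm, h3⟩ := Set.mem_iUnion₂.1 (hcov hn)
    exact (pow_le_pow_left₀ (by positivity) (le_of_lt h3) k).trans
      (Finset.single_le_sum (f := fun m => χ (star m * n) ^ k)
        (fun m _ => pow_nonneg (hχ0 _) k) hm)
  have h3 : 0 < ((θ + 1) / 2) ^ k := by positivity
  have h4 : 0 < ψ a := pos_of_mul_pos_right (h3.trans_le h2) (Nat.cast_nonneg _)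
  refine ⟨ψ, g1, g2, h4, ?_, g7, g3⟩
  rw [div_pow, div_lt_div_iff₀ h3 (by positivity)] at hk
  have h5 : 0 < (F.card : ℝ) + 1 := by positivity
  nlinarith

end Pos

end Pool.Agent.MP_5139aa_an.Cl
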