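import Mathlib
import Pool.Agent.MP_5139aa_an.Cl.Node

set_option autoImplicit false
set_option linter.unusedSectionVars false

namespace Pool.Agent.MP_5139aa_an.Cl

open Filter Topology MeasureTheory
open scoped InnerProductSpace

/-- infinite product of numbers in the unit interval -/
noncomputable def pinf (ν : ℕ → ℝ) : ℝ := ⨅ n, ∏ m ∈ Finset.range n, ν m

section Pinf

variable {ν : ℕ → ℝ} (h : ∀ m, 0 ≤ ν m ∧ ν m ≤ 1)
include h

lemma pp_nonneg (n : ℕ) : 0 ≤ ∏ m ∈ Finset.range n, ν m := Finset.prod_nonneg fun m _ => (h m).1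

lemma pp_le_one (n : ℕ) : ∏ m ∈ Finset.range n, ν m ≤ 1 :=
  Finset.prod_le_one (fun m _ => (h m).1) fun m _ => (h m).2

lemma pp_bdd : BddBelow (Set.range fun n => ∏ m ∈ Finset.range n, ν m) :=
  ⟨0, Set.forall_mem_range.2 (pp_nonneg h)⟩

lemma pinf_tendsto : Tendsto (fun n => ∏ m ∈ Finset.range n, ν m) atTop (𝓝 (pinf ν)) :=
  tendsto_atTop_ciInf (antitone_nat_of_succ_le fun n => by
    rw [Finset.prod_range_succ]
    exact mul_le_of_le_one_right (pp_nonneg h n) (h n).2) (pp_bdd h)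

lemma pinf_nonneg : 0 ≤ pinf ν := le_ciInf (pp_nonneg h)

lemma pinf_le (n : ℕ) : pinf ν ≤ ∏ m ∈ Finset.range n, ν m := ciInf_le (pp_bdd h) n

lemma pinf_ge (n : ℕ) (hn : ∀ m, n ≤ m → 1 - (1 / 2 : ℝ) ^ (m + 2) ≤ ν m) :
    ∏ m ∈ Finset.range n, ν m - (1 / 2 : ℝ) ^ (n + 1) ≤ pinf ν := by
  refine ge_of_tendsto (pinf_tendsto h) (eventually_atTop.2 ⟨n, fun k hk => ?_⟩)
  have h1 : ∏ m ∈ Finset.range n, ν m - (1 / 2 : ℝ) ^ (n + 1) ≤
      ∏ m ∈ Finset.range k, ν m - (1 / 2 : ℝ) ^ (k + 1) := by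
    induction k, hk using Nat.le_induction with
    | base => exact le_rfl
    | succ k hk ih =>
      have h2 := mul_le_mul_of_nonneg_left (hn k hk) (pp_nonneg h k)
      have h3 := mul_le_of_le_one_left (show 0 ≤ (1 / 2 : ℝ) ^ (k + 2) by positivity)
        (pp_le_one h k)
      have h4 : (1 / 2 : ℝ) ^ (k + 1) = 2 * (1 / 2) ^ (k + 2) := by ring
      rw [Finset.prod_range_succ _ k]
      linarith
  linarith [show 0 ≤ (1 / 2 : ℝ) ^ (k + 1) by positivity]

lemma pinf_zero (n : ℕ) {θ : ℝ} (hθ : θ < 1) (hn : ∀ m, n ≤ m → ν m ≤ θ) : pinf ν = 0 := by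
  have h0 : 0 ≤ θ := (h n).1.trans (hn n le_rfl)
  refine le_antisymm (ge_of_tendsto' (tendsto_pow_atTop_nhds_zero_of_lt_one h0 hθ) fun k => ?_)
    (pinf_nonneg h)
  refine (pinf_le h (n + k)).trans ?_
  induction k with
  | zero => simpa using pp_le_one h n
  | succ k ih =>
    rw [← add_assoc, Finset.prod_range_succ, pow_succ]
    exact mul_le_mul ih (hn _ (by omega)) (h _).1 (by positivity)

end Pinf

/-- index of the dyadic interval of length `2 ^ (-n)` containing `t` -/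
noncomputable def idx (n : ℕ) (t : ℝ) : ℕ := ⌊2 ^ n * t⌋₊

lemma idx_lt (n : ℕ) {t : ℝ} (ht : t ∈ Set.Ico (0 : ℝ) 1) : idx n t < 2 ^ n := by
  rw [idx, Nat.floor_lt (by have := ht.1; positivity)]
  push_cast
  exact mul_lt_of_lt_one_right (by positivity) ht.2

lemma idx_lo (n k : ℕ) {t : ℝ} (ht : 0 ≤ t) : 2 ^ k * idx n t ≤ idx (n + k) t := by
  refine Nat.le_floor ?_
  push_cast
  rw [pow_add, mul_comm ((2 : ℝ) ^ n), mul_assoc]
  exact mul_le_mul_of_nonneg_left (Nat.floor_le (by positivity)) (by positivity)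

lemma idx_hi (n k : ℕ) {t : ℝ} (ht : 0 ≤ t) : idx (n + k) t < 2 ^ k * (idx n t + 1) := by
  rw [idx, Nat.floor_lt (by positivity)]
  push_cast
  rw [pow_add, mul_comm ((2 : ℝ) ^ n), mul_assoc]
  exact mul_lt_mul_of_pos_left (Nat.lt_floor_add_one _) (by positivity)

lemma idx_sep {t t' : ℝ} (ht : 0 ≤ t) (h : t < t') : ∃ n, idx n t + 1 < idx n t' := by
  obtain ⟨n, hn⟩ := pow_unbounded_of_one_lt (2 / (t' - t)) (by norm_num : (1 : ℝ) < 2)
  refine ⟨n, Nat.le_floor ?_⟩
  rw [div_lt_iff₀ (by linarith)] at hn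
  have := Nat.floor_le (show 0 ≤ 2 ^ n * t by positivity)
  push_cast
  rw [idx]
  linarith

variable {S : Type} [CommMonoid S] [StarMul S] [MetricSpace S] [CompactSpace S]
variable {H : Type} [NormedAddCommGroup H] [InnerProductSpace ℂ H] [CompleteSpace H]
variable {Y : Type} [MetricSpace Y]

theorem Pos.exists_phi {u : S} {σ : S → H →L[ℂ] H} {v0 : H} {π : S → Y} (P : Pos u σ v0 π)
    {a b : S} (hab : LL π a b) :
    ∃ Φ : S → ℝ, PD Φ ∧ Continuous Φ ∧ (∀ s, 0 ≤ Φ s ∧ Φ s ≤ 1) ∧ (∀ s, s ∉ Up a → Φ s = 0) ∧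
      1 / 2 ≤ Φ b ∧ ∀ s t, π s = π t → Φ s = Φ t := by
  obtain ⟨c, hc0, hc1, hce, hcl⟩ := chain (LL π) (fun _ _ _ => P.ll_trans)
    (fun _ _ => P.ll_interp) hab
  have hcb : ∀ n, c n (2 ^ n) = b := fun n => by simpa [hc1] using hce 0 n 1
  have hmi : ∀ n i, i < 2 ^ n → Mi π (c n i) := fun n i hi => (hcl n i _ hi le_rfl).1
  have hle : ∀ n i j, i ≤ j → j < 2 ^ n → c n j * c n i = c n i := fun n i j hij hj => by
    rcases hij.eq_or_lt with rfl | h
    · exact (hmi n i hj).1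
    · exact P.ll_le (hcl n i j h hj.le)
  set κ : ℝ := (1 + ‖v0‖ ^ 2)⁻¹ with hκ
  have hκ0 : 0 < κ := by positivity
  have hν : ∀ m i : ℕ, ∃ ν : S → ℝ, PD ν ∧ Continuous ν ∧ (∀ s, 0 ≤ ν s ∧ ν s ≤ 1) ∧
      (i < 2 ^ m → (∀ s, ν s ≤ 1 - κ * del σ v0 (c m i) s) ∧
        (∀ s, (s = b ∨ ∀ x, x ∉ Up (c m i) → (1 / 2 : ℝ) ^ m ≤ dist x s) →
          1 - (1 / 2 : ℝ) ^ (m + 2) ≤ ν s) ∧
        ∀ s ∈ Up (c m i), ∀ t, π s = π t → ν s = ν t) := by
    intro m i
    by_cases hi : i < 2 ^ m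
    · have hK : IsClosed {s | ∀ x, x ∉ Up (c m i) → (1 / 2 : ℝ) ^ m ≤ dist x s} := by
        simp only [Set.ofPred_forall]
        exact isClosed_iInter fun x => isClosed_iInter fun _ =>
          isClosed_le continuous_const (continuous_const.dist continuous_id)
      obtain ⟨ν, h1, h2, h3, h4, h5, h6⟩ := P.node (hmi m i hi) (hK.isCompact.insert b)
        (by
          rintro s (rfl | hs)
          · exact interior_subset (hcb m ▸ (hcl m i _ hi le_rfl).2.2)
          · by_contra hne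
            have h7 := hs s hne
            rw [dist_self] at h7
            exact absurd h7 (not_le.2 (by positivity)))
        (show 0 < (1 / 2 : ℝ) ^ (m + 2) by positivity)
      refine ⟨ν, h1, h2, fun s => ⟨h3 s, (h4 s).trans (sub_le_self _ ?_)⟩,
        fun _ => ⟨h4, h5, h6⟩⟩
      exact mul_nonneg hκ0.le (P.del_nonneg _ _)
    · exact ⟨fun _ => 1, PD.one, continuous_const, fun _ => ⟨zero_le_one, le_rfl⟩,
        fun h => absurd h hi⟩
  choose ν hν1 hν2 hν3 hν4 using hν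
  let F : ℝ → S → ℝ := fun t s => pinf fun m => ν m (idx m t) s
  have hF0 : ∀ t s, 0 ≤ F t s := fun t s => pinf_nonneg fun m => hν3 _ _ _
  have hF1 : ∀ t s, F t s ≤ 1 := fun t s => pinf_le (fun m => hν3 _ _ _) 0
  have hFp : ∀ t, PD (F t) := fun t =>
    PD.lim (fun n => PD.prod (Finset.range n) fun m _ => hν1 m (idx m t))
      fun s => pinf_tendsto fun m => hν3 _ _ _
  have hFm : ∀ s, Measurable fun t => F t s := fun s =>
    Measurable.iInf fun n => Finset.measurable_prod _ fun m _ =>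
      (measurable_from_top (f := fun i => ν m i s)).comp
        (measurable_const.mul measurable_id).nat_floor
  have hmono : ∀ t ∈ Set.Ico (0 : ℝ) 1, ∀ n m, n ≤ m →
      c m (idx m t) * c n (idx n t) = c n (idx n t) := by
    intro t ht n m hnm
    obtain ⟨k, rfl⟩ := Nat.exists_eq_add_of_le hnm
    rw [← hce n k]
    exact hle _ _ _ (idx_lo n k ht.1) (idx_lt _ ht)
  have hdead : ∀ t ∈ Set.Ico (0 : ℝ) 1, ∀ s n, s ∉ Up (c n (idx n t)) → F t s = 0 :=
    fun t ht s n hs => pinf_zero (fun m => hν3 _ _ _) n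
      (θ := 1 - κ * del σ v0 (c n (idx n t)) s)
      (sub_lt_self _ (mul_pos hκ0 (P.del_pos hs))) fun m hm =>
        ((hν4 m _ (idx_lt m ht)).1 s).trans (sub_le_sub_left
          (mul_le_mul_of_nonneg_left (P.del_mono (hmi n _ (idx_lt n ht)) (hmono t ht n m hm) s) hκ0.le) 1)
  have hinv : ∀ t ∈ Set.Ico (0 : ℝ) 1, ∀ s s', π s = π s' → F t s = F t s' := by
    intro t ht s s' hs
    by_cases h : ∀ m, s ∈ Up (c m (idx m t))
    · simp only [F, fun m => (hν4 m _ (idx_lt m ht)).2.2 s (h m) s' hs]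
    · obtain ⟨m, hm⟩ := not_forall.1 h
      rw [hdead t ht s m hm,
        hdead t ht s' m fun h' => hm (P.up_inv (hmi m _ (idx_lt m ht)) h' hs.symm)]
  have hcont : ∀ t ∈ Set.Ico (0 : ℝ) 1, ∀ s, (F t s = 0 ∨ ∀ᶠ x in 𝓝 s,
      ∀ m, x ∈ Up (c m (idx m t))) → ContinuousAt (F t) s := by
    intro t ht s hs
    have hpc : ∀ n, Continuous fun x => ∏ m ∈ Finset.range n, ν m (idx m t) x := fun n =>
      continuous_finsetProd _ fun m _ => hν2 _ _
    refine tendsto_order.2 ⟨fun r hr => ?_, fun r hr => ?_⟩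
    · rcases hs with hs | hs
      · exact Eventually.of_forall fun x => (hs ▸ hr).trans_le (hF0 t x)
      · obtain ⟨ρ, hρ, hball⟩ := Metric.eventually_nhds_iff.1 hs
        obtain ⟨n, hn⟩ := exists_pow_lt_of_lt_one (x := min (ρ / 2) (F t s - r))
          (lt_min (by positivity) (by linarith)) (by norm_num : (1 / 2 : ℝ) < 1)
        have h1 : r + (1 / 2 : ℝ) ^ (n + 1) < ∏ m ∈ Finset.range n, ν m (idx m t) s := by
          have h2 : F t s ≤ _ := pinf_le (fun m => hν3 m (idx m t) s) n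
          have h3 : (1 / 2 : ℝ) ^ (n + 1) ≤ (1 / 2) ^ n :=
            pow_le_pow_of_le_one (by norm_num) (by norm_num) n.le_succ
          linarith [min_le_right (ρ / 2) (F t s - r)]
        filter_upwards [((hpc n).tendsto s).eventually (lt_mem_nhds h1),
          Metric.ball_mem_nhds s (half_pos hρ)] with x hx1 hx2
        have h4 : _ ≤ F t x := pinf_ge (fun m => hν3 m (idx m t) x) n fun m hm =>
          (hν4 m _ (idx_lt m ht)).2.1 x (Or.inr fun y hy => by
            have h5 : ρ ≤ dist y s := not_lt.1 fun h6 => hy (hball h6 m)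
            have h7 : (1 / 2 : ℝ) ^ m ≤ (1 / 2) ^ n :=
              pow_le_pow_of_le_one (by norm_num) (by norm_num) hm
            linarith [dist_triangle y x s, Metric.mem_ball.1 hx2, min_le_left (ρ / 2) (F t s - r)])
        linarith
    · obtain ⟨n, hn⟩ := ((pinf_tendsto fun m => hν3 m (idx m t) s).eventually
        (gt_mem_nhds hr)).exists
      filter_upwards [((hpc n).tendsto s).eventually (gt_mem_nhds hn)] with x hx
      exact (pinf_le (fun m => hν3 m (idx m t) x) n).trans_lt hx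
  have hrob : ∀ t ∈ Set.Ico (0 : ℝ) 1, ∀ t' ∈ Set.Ico (0 : ℝ) 1, t < t' → ∀ s,
      F t' s ≠ 0 → ∀ᶠ x in 𝓝 s, ∀ m, x ∈ Up (c m (idx m t)) := by
    intro t ht t' ht' htt s hs
    obtain ⟨n, hn⟩ := idx_sep ht.1 htt
    have h1 := hcl n _ _ hn (idx_lt n ht').le
    have h2 : s ∈ Up (c n (idx n t')) := by_contra fun h => hs (hdead t' ht' s n h)
    filter_upwards [mem_interior_iff_mem_nhds.1 (P.up_int h1.2.2 h2)] with x hx m
    refine up_mono (hmono t ht m (n + m) (by omega)) (up_mono ?_ hx)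
    rw [← hce n m]
    refine P.ll_le (hcl _ _ _ (idx_hi n m ht.1) ?_)
    rw [pow_add, mul_comm (2 ^ n)]
    exact Nat.mul_le_mul_left _ (idx_lt n ht)
  let μ : Measure ℝ := volume.restrict (Set.Ico 0 1)
  have hμ : IsProbabilityMeasure μ := ⟨by simp [μ]⟩
  have hae : ∀ᵐ t ∂μ, t ∈ Set.Ico (0 : ℝ) 1 := ae_restrict_mem measurableSet_Ico
  have hbd : ∀ s, ∀ᵐ t ∂μ, ‖F t s‖ ≤ 1 := fun s => Eventually.of_forall fun t => by
    rw [Real.norm_of_nonneg (hF0 t s)]
    exact hF1 t s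
  have hint : ∀ s, Integrable (fun t => F t s) μ := fun s =>
    Integrable.of_bound (hFm s).aestronglyMeasurable 1 (hbd s)
  refine ⟨fun s => ∫ t, F t s ∂μ, PD.integral hFp hint, continuous_iff_continuousAt.2 fun s => ?_,
    fun s => ⟨integral_nonneg fun t => hF0 t s, ?_⟩, fun s hs => ?_, ?_, fun s s' hs => ?_⟩
  · refine continuousAt_of_dominated (bound := fun _ => 1)
      (Eventually.of_forall fun x => (hFm x).aestronglyMeasurable) (Eventually.of_forall hbd)
      (integrable_const _) ?_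
    have hsub : Set.Subsingleton {t | t ∈ Set.Ico (0 : ℝ) 1 ∧ ¬ContinuousAt (F t) s} := by
      have key : ∀ t t', t ∈ Set.Ico (0 : ℝ) 1 ∧ ¬ContinuousAt (F t) s →
          t' ∈ Set.Ico (0 : ℝ) 1 ∧ ¬ContinuousAt (F t') s → ¬t < t' := fun t t' h h' hlt =>
        h.2 (hcont t h.1 s (Or.inr (hrob t h.1 t' h'.1 hlt s
          fun h0 => h'.2 (hcont t' h'.1 s (Or.inl h0)))))
      exact fun t h t' h' => le_antisymm (not_lt.1 (key t' t h' h)) (not_lt.1 (key t t' h h'))
    filter_upwards [hae, compl_mem_ae_iff.2 (hsub.measure_zero μ)] with t h1 h2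
    exact by_contra fun h => h2 ⟨h1, h⟩
  · simpa using integral_mono (hint s) (integrable_const (1 : ℝ)) fun t => hF1 t s
  · refine integral_eq_zero_of_ae ?_
    filter_upwards [hae] with t ht
    refine hdead t ht s 0 ?_
    rwa [show idx 0 t = 0 by simpa using idx_lt 0 ht, hc0]
  · have h1 : ∀ᵐ t ∂μ, (1 / 2 : ℝ) ≤ F t b := by
      filter_upwards [hae] with t ht
      have h2 : _ ≤ F t b := pinf_ge (fun m => hν3 m (idx m t) b) 0 fun m _ =>
        (hν4 m _ (idx_lt m ht)).2.1 b (Or.inl rfl)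
      norm_num at h2 ⊢
      exact h2
    simpa using integral_mono_ae (integrable_const (1 / 2 : ℝ)) (hint b) h1
  · refine integral_congr_ae ?_
    filter_upwards [hae] with t ht
    exact hinv t ht s s' hs

end Pool.Agent.MP_5139aa_an.Cl
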