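import Mathlib
import Pool.Agent.MP_5139aa_an.Cl.Phi

set_option autoImplicit false
set_option linter.unusedSectionVars false

namespace Pool.Agent.MP_5139aa_an.Cl

open Filter Topology
open scoped InnerProductSpace

variable {S : Type} [CommMonoid S] [StarMul S] [MetricSpace S] [CompactSpace S]
variable {H : Type} [NormedAddCommGroup H] [InnerProductSpace ℂ H] [CompleteSpace H]
variable {Y : Type} [MetricSpace Y]

/-- squared distance attached to a positive definite function -/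
def dsq (φ : S → ℝ) (s t : S) : ℝ :=
  φ (star s * s) - φ (star s * t) - (φ (star t * s) - φ (star t * t))

lemma IsRep.dsq_eq {σ : S → H →L[ℂ] H} (h : IsRep σ) {v : H} {φ : S → ℝ}
    (hv : ∀ s, ⟪v, σ s v⟫_ℂ = φ s) (s t : S) : dsq φ s t = ‖σ s v - σ t v‖ ^ 2 := by
  rw [← inner_self_eq_norm_sq (𝕜 := ℂ)]
  simp only [inner_sub_left, inner_sub_right, h.adj, ← h.mul, hv, dsq]
  simp
  ring

lemma PD.dsq {u : S} (c : Ctx u) {φ : S → ℝ} (hφ : PD φ) (hc : Continuous φ) (s t : S) :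
    0 ≤ dsq φ s t ∧ (dsq φ s t = 0 → ∀ r, φ (r * s) = φ (r * t)) := by
  obtain ⟨K, _, _, _, τ, v, h, hv⟩ := hφ.gns c hc
  rw [h.dsq_eq hv]
  refine ⟨by positivity, fun h0 r => Complex.ofReal_injective ?_⟩
  rw [← hv, ← hv, h.mul, h.mul, sub_eq_zero.1 (norm_eq_zero.1 (pow_eq_zero_iff two_ne_zero |>.1 h0))]

namespace Pos

variable {u : S} {σ : S → H →L[ℂ] H} {v0 : H} {π : S → Y} (P : Pos u σ v0 π)
include P

lemma sep0 {s₀ s₁ : S} (h : π (star s₀ * s₁) ≠ π (star s₀ * s₀)) :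
    ∃ Θ : S → ℝ, PD Θ ∧ Continuous Θ ∧ (∀ s s', π s = π s' → Θ s = Θ s') ∧
      Θ (star s₀ * s₀) ≠ Θ (star s₀ * s₁) := by
  obtain ⟨b, hb, hb0⟩ := P.exists_mi (P.abs_idem s₀)
  have h1 : π (star s₀ * s₁ * b) ≠ π b := by
    have e : π (star s₀ * s₁ * (star s₀ * s₀)) = π (star s₀ * s₁) := by
      rw [show star s₀ * s₁ * (star s₀ * s₀) = (star s₀ * s₀ * star s₀) * s₁ by ac_rfl]
      exact P.cong2 (P.reg' s₀) rfl
    rwa [P.cong _ _ _ hb0, e, hb0]
  obtain ⟨a, ha, hab⟩ := P.exists_ll hb (V := {a | π (star s₀ * s₁ * a) ≠ π a})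
    ((isOpen_ne_fun (P.cπ.comp (P.c.cmul _)) P.cπ).mem_nhds h1)
  obtain ⟨Φ, f1, f2, f3, f4, f5, f6⟩ := P.exists_phi hab
  obtain ⟨ψ, g1, g2, g3, g4, g5, g6⟩ := P.psi hab.1 ha
  have hinv : ∀ s s', π s = π s' → Φ s * ψ s = Φ s' * ψ s' := fun s s' hs => by
    by_cases hu : s ∈ Up a
    · rw [f6 s s' hs, g6 s hu s' hs]
    · rw [← f6 s s' hs, f4 s hu, zero_mul, zero_mul]
  refine ⟨fun s => Φ s * ψ s, f1.mul g1, f2.mul g2, hinv, ?_⟩
  have h2 : ψ b = ψ a := by rw [← g5 b, P.ll_le hab]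
  change Φ _ * ψ _ ≠ Φ _ * ψ _
  rw [← hinv _ _ hb0, h2]
  obtain ⟨h3, h4⟩ := f3 (star s₀ * s₁)
  refine ne_of_gt ?_
  nlinarith

lemma sep {s₀ s₁ : S} (h : π s₀ ≠ π s₁) :
    ∃ (Θ : S → ℝ) (t : S), (PD Θ ∧ Continuous Θ ∧ ∀ s s', π s = π s' → Θ s = Θ s') ∧
      Θ (t * s₀) ≠ Θ (t * s₁) := by
  by_cases h0 : π (star s₀ * s₁) = π (star s₀ * s₀)
  · by_cases h1 : π (star s₁ * s₀) = π (star s₁ * s₁)
    · refine absurd ?_ h
      have h2 := P.cstar h0
      rw [star_mul, star_mul, star_star] at h2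
      calc π s₀ = π (s₀ * (star s₀ * s₀)) := by rw [← mul_assoc, P.reg]
        _ = π (s₀ * (star s₀ * s₁)) := P.cong _ _ _ h0.symm
        _ = π (s₁ * (star s₀ * s₀)) := by congr 1; ac_rfl
        _ = π (s₁ * (star s₁ * s₁)) := P.cong _ _ _ (h2.symm.trans h1)
        _ = π s₁ := by rw [← mul_assoc, P.reg]
    · obtain ⟨Θ, g1, g2, g3, g4⟩ := P.sep0 h1
      exact ⟨Θ, star s₁, ⟨g1, g2, g3⟩, g4.symm⟩
  · obtain ⟨Θ, g1, g2, g3, g4⟩ := P.sep0 h0
    exact ⟨Θ, star s₀, ⟨g1, g2, g3⟩, g4⟩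

theorem hilbRep (T' : Y ≃ₜ Y) (hs : Function.Surjective π) (he : ∀ s, π (u * s) = T' (π s)) :
    HilbRep T' := by
  let ι : Type := {p : (S → ℝ) × S //
    PD p.1 ∧ Continuous p.1 ∧ ∀ s s', π s = π s' → p.1 s = p.1 s'}
  let O : ι → Set (S × S) := fun i => {q | i.1.1 (i.1.2 * q.1) ≠ i.1.1 (i.1.2 * q.2)}
  obtain ⟨T, hT, hTO⟩ := TopologicalSpace.isOpen_iUnion_countable O fun i =>
    isOpen_ne_fun ((i.2.2.1.comp (P.c.cmul _)).comp continuous_fst)
      ((i.2.2.1.comp (P.c.cmul _)).comp continuous_snd)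
  obtain ⟨e, he'⟩ := (hT.insert
    (⟨(fun _ => 1, 1), PD.one, continuous_const, fun _ _ _ => rfl⟩ : ι)).exists_eq_range
      (Set.insert_nonempty _ _)
  have hM : ∀ j, ∃ w : ℝ, 0 < w ∧ ∀ s, ‖w * (e j).1.1 s‖ ≤ (1 / 2 : ℝ) ^ j := fun j => by
    obtain ⟨M, hM⟩ := (isCompact_range (e j).2.2.1.norm).bddAbove
    refine ⟨(1 / 2 : ℝ) ^ j / (|M| + 1), by positivity, fun s => ?_⟩
    rw [norm_mul, Real.norm_of_nonneg (by positivity), div_mul_eq_mul_div,
      div_le_iff₀ (by positivity)]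
    exact mul_le_mul_of_nonneg_left (by linarith [hM ⟨s, rfl⟩, le_abs_self M]) (by positivity)
  choose w hw0 hw using hM
  let Θ : S → ℝ := fun s => ∑' j, w j * (e j).1.1 s
  have hsum : ∀ s, HasSum (fun j => w j * (e j).1.1 s) (Θ s) := fun s =>
    (Summable.of_norm_bounded summable_geometric_two fun j => hw j s).hasSum
  have hΘp : PD Θ := PD.lim
    (fun n => PD.sum (Finset.range n) fun j _ => (e j).2.1.smul (hw0 j).le)
    fun s => (hsum s).tendsto_sum_nat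
  have hΘc : Continuous Θ :=
    continuous_tsum (fun j => continuous_const.mul (e j).2.2.1) summable_geometric_two hw
  have hΘi : ∀ s s', π s = π s' → Θ s = Θ s' := fun s s' h => by
    simp only [Θ, fun j => (e j).2.2.2 s s' h]
  obtain ⟨K, _, _, _, τ, v, hτ, hv⟩ := hΘp.gns P.c hΘc
  refine hilbRep_of_rep P.c hτ v T' π P.cπ hs he fun s t => ?_
  rw [← sub_eq_zero (a := τ s v), ← norm_eq_zero, ← pow_eq_zero_iff two_ne_zero, ← hτ.dsq_eq hv]
  constructor
  · intro h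
    rw [dsq, hΘi _ _ (P.cong (star s) _ _ h), hΘi _ _ (P.cong (star t) _ _ h), sub_self, sub_self,
      sub_self]
  · intro h
    by_contra hne
    obtain ⟨φ, r, hφ, hr⟩ := P.sep hne
    have h1 : (s, t) ∈ ⋃ i ∈ T, O i := hTO ▸ Set.mem_iUnion.2 ⟨⟨(φ, r), hφ⟩, hr⟩
    obtain ⟨i, hi, hO⟩ := Set.mem_iUnion₂.1 h1
    obtain ⟨j, rfl⟩ : i ∈ Set.range e := he' ▸ Set.mem_insert_of_mem _ hi
    have h2 : HasSum (fun j => w j * dsq (e j).1.1 s t) (dsq Θ s t) := by
      simpa only [dsq, mul_sub] using ((hsum _).sub (hsum _)).sub ((hsum _).sub (hsum _))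
    rw [h, hasSum_zero_iff_of_nonneg fun j =>
      mul_nonneg (hw0 j).le ((e j).2.1.dsq P.c (e j).2.2.1 s t).1] at h2
    exact hO (((e j).2.1.dsq P.c (e j).2.2.1 s t).2
      ((mul_eq_zero.1 (congrFun h2 j)).resolve_left (hw0 j).ne') _)

end Pos

theorem neg_abs {u : S} (c : Ctx u) (hall : AllFac u) :
    (∀ p : S, ∃ q : S, p * q * p = p) ∧ Law S := by
  let T : S ≃ₜ S :=
    { toFun := fun s => u * s
      invFun := fun s => star u * s
      left_inv := fun s => by simp only [← mul_assoc, c.unit, one_mul]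
      right_inv := fun s => show u * (star u * s) = s by
        rw [← mul_assoc, mul_comm u, c.unit, one_mul]
      continuous_toFun := c.cmul u
      continuous_invFun := c.cmul (star u) }
  obtain ⟨K, _, _, _, U, g, inj, hg, hc⟩ :=
    hall S T id continuous_id Function.surjective_id fun _ => rfl
  obtain ⟨K, _, _, _, σ, v, h, hv, -⟩ := rep_of_equiv c U g hg hc
  have inj' : Function.Injective fun s => σ s v := fun s t hst => inj ((hv s t).1 hst)
  exact ⟨fun p => ⟨star p, neg_reg c h inj' hall p⟩, neg_law c h inj' hall⟩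

theorem pos_abs {u : S} (c : Ctx u) (U : H ≃ₗᵢ[ℂ] H) (g : S → H) (inj : Function.Injective g)
    (hg : ∀ s, g (u * s) = U (g s)) (hc : ∀ v : H, Continuous fun s => ⟪v, g s⟫_ℂ)
    {Q : Type} [CommMonoid Q] [MetricSpace Q] (uQ : Q) (θ : S → Q)
    (cQ : ∀ a : Q, Continuous fun q => q * a) (cθ : Continuous θ) (sθ : Function.Surjective θ)
    (θ1 : θ 1 = 1) (θu : ∀ s, θ (u * s) = uQ * θ s) (reg : ∀ p : Q, ∃ q, p * q * p = p)
    (law : Law Q) (R : Y ≃ₜ Y) (ρ : Q → Y) (cρ : Continuous ρ) (sρ : Function.Surjective ρ)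
    (hρ : ∀ q, ρ (uQ * q) = R (ρ q)) : HilbRep R := by
  obtain ⟨K, _, _, _, σ, v, h, hv, -⟩ := rep_of_equiv c U g hg hc
  have inj' : Function.Injective fun s => σ s v := fun s t hst => inj ((hv s t).1 hst)
  have e0 : ∀ x, u * (star u * x) = x := fun x => by
    rw [← mul_assoc, mul_comm u, c.unit, one_mul]
  have cr : ∀ a : S, Continuous fun r => r * a := fun a => by
    simpa only [mul_comm] using c.cmul a
  have θs : ∀ s, θ (star u * s) = θ (star u) * θ s := fun s => by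
    have h1 : uQ * θ (star u) = 1 := by rw [← θu, mul_comm, c.unit, θ1]
    rw [← one_mul (θ (star u * s)), ← h1, mul_comm uQ, mul_assoc, ← θu, e0]
  have θm : ∀ s t, θ (s * t) = θ s * θ t := fun s t => by
    refine c.ind {s | θ (s * t) = θ s * θ t} (isClosed_eq (cθ.comp (cr t)) ((cQ _).comp cθ))
      (by simp [θ1]) (fun r hr => ?_) (fun r hr => ?_) s
    · change θ (u * r * t) = θ (u * r) * θ t
      rw [mul_assoc, θu, θu, hr, mul_assoc]
    · change θ (star u * r * t) = θ (star u * r) * θ t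
      rw [mul_assoc, θs, θs r, hr, mul_assoc]
  have θr : ∀ s, θ (s * star s * s) = θ s := fun s => by
    obtain ⟨q, hq⟩ := reg (θ s)
    obtain ⟨r, rfl⟩ := sθ q
    exact reg_of_regular h inj' cθ (fun a s t hst => by rw [θm, θm, hst])
      (r := r) (by rw [θm, θm, hq])
  have he : ∀ s, ρ (θ (u * s)) = R (ρ (θ s)) := fun s => by rw [θu, hρ]
  refine Pos.hilbRep (σ := σ) (v0 := v) (π := fun s => ρ (θ s))
    ⟨c, h, inj', cρ.comp cθ, fun a s t hst => ?_, fun s => congrArg ρ (θr s),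
      fun b hb hsb ε hε => ?_⟩ R (sρ.comp sθ) he
  · refine c.ind {a | ρ (θ (a * s)) = ρ (θ (a * t))}
      (isClosed_eq (cρ.comp (cθ.comp (cr s))) (cρ.comp (cθ.comp (cr t)))) (by simpa using hst)
      (fun r hr => ?_) (fun r hr => R.injective ?_) a
    · change ρ (θ (u * r * s)) = ρ (θ (u * r * t))
      rw [mul_assoc, mul_assoc, he, he, hr]
    · rw [← he, ← he, mul_assoc, mul_assoc, e0, e0]
      exact hr
  · have hbQ : θ b * θ b = θ b := by rw [← θm, hb]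
    obtain ⟨W, hW, hWV, hcl⟩ := law (θ b) hbQ
      ({x | x * x = x} ∩ ρ ⁻¹' Metric.closedBall (ρ (θ b)) ε)
      (inter_mem_nhdsWithin _ (cρ.tendsto _ (Metric.closedBall_mem_nhds _ hε)))
    refine ⟨θ ⁻¹' W, fun x hx y hy => ?_, fun x hx => ?_, fun x hx => (hWV hx).2, ?_⟩
    · rw [Set.mem_preimage, θm]
      exact hcl _ hx _ hy
    · have h1 : θ x * θ x = θ x := (hWV hx).1
      have h2 := θr x
      have h3 := θr (star x)
      rw [θm, θm, mul_right_comm, h1] at h2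
      rw [star_star, θm, θm, mul_comm (θ (star x)) (θ x), h2, h2] at h3
      rwa [Set.mem_preimage, ← h3]
    · have h1 : Tendsto (fun x => θ (star x * x * b)) (𝓝 b) (𝓝[{x : Q | x * x = x}] θ b) := by
        refine tendsto_nhdsWithin_iff.2 ⟨(cθ.tendsto b).comp
          (h.tendsto_abs inj' c.cstar ((mem_up hb hsb).2 hb)), Eventually.of_forall fun x => ?_⟩
        change θ _ * θ _ = θ _
        rw [← θm, show star x * x * b * (star x * x * b) = (star x * (b * b)) * (x * star x * x) by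
          ac_rfl, hb, θm, θr, ← θm, mul_right_comm]
      exact h1 hW

end Pool.Agent.MP_5139aa_an.Cl
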