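import Mathlib
import Pool.Agent.MP_5139aa_an.Cl.Main

set_option autoImplicit false
set_option linter.unusedSectionVars false

namespace Pool.Agent.MP_5139aa_an.Cl

open Filter Topology
open scoped InnerProductSpace ComplexConjugate

variable {X : Type} [MetricSpace X] [CompactSpace X] {T : X ≃ₜ X}
variable {H : Type} [NormedAddCommGroup H] [InnerProductSpace ℂ H] [CompleteSpace H]

lemma pow_mem_ellis (n : ℤ) : ⇑(T ^ n) ∈ Ellis T := subset_closure ⟨n, rfl⟩

lemma ellis_ind {C : Set (X → X)} (hC : IsClosed C) (h : ∀ n : ℤ, ⇑(T ^ n) ∈ C) : Ellis T ⊆ C :=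
  closure_minimal (Set.range_subset_iff.2 h) hC

lemma comp_mem_ellis {p q : X → X} (hp : p ∈ Ellis T) (hq : q ∈ Ellis T) : p ∘ q ∈ Ellis T := by
  have h1 : Continuous fun p : X → X => p ∘ q := continuous_pi fun x => continuous_apply (q x)
  refine ellis_ind (isClosed_closure.preimage h1) (fun n => ?_) hp
  have h2 : Continuous fun q : X → X => ⇑(T ^ n) ∘ q :=
    continuous_pi fun x => (T ^ n).continuous.comp (continuous_apply x)
  refine ellis_ind (isClosed_closure.preimage h2) (fun m => ?_) hq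
  change ⇑(T ^ n * T ^ m) ∈ Ellis T
  rw [← zpow_add]
  exact pow_mem_ellis _

lemma comm_pow {p : X → X} (hp : p ∈ Ellis T) (n : ℤ) (x : X) : p ((T ^ n) x) = (T ^ n) (p x) := by
  refine ellis_ind (C := {p | p ((T ^ n) x) = (T ^ n) (p x)})
    (isClosed_eq (continuous_apply _) ((T ^ n).continuous.comp (continuous_apply x)))
    (fun m => ?_) hp
  change (T ^ m * T ^ n) x = (T ^ n * T ^ m) x
  rw [← zpow_add, ← zpow_add, add_comm]

lemma comm_ellis {p q : X → X} (hp : p ∈ Ellis T) (hc : Continuous p) (hq : q ∈ Ellis T) (x : X) :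
    p (q x) = q (p x) :=
  ellis_ind (C := {q | p (q x) = q (p x)})
    (isClosed_eq (hc.comp (continuous_apply x)) (continuous_apply _))
    (fun n => comm_pow hp n x) hq

/-- the enveloping semigroup as a commutative monoid -/
@[reducible] def elMonoid (hc : ∀ p ∈ Ellis T, Continuous p) : CommMonoid (Ellis T) where
  mul p q := ⟨p.1 ∘ q.1, comp_mem_ellis p.2 q.2⟩
  one := ⟨id, pow_mem_ellis 0⟩
  mul_assoc _ _ _ := rfl
  one_mul _ := rfl
  mul_one _ := rfl
  mul_comm p q := Subtype.ext (funext (comm_ellis p.2 (hc _ p.2) q.2))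

section Rep

variable {U : H ≃ₗᵢ[ℂ] H} {f : X → H}

lemma inner_pow (heq : ∀ x, f (T x) = U (f x)) (n : ℤ) :
    ∀ x y, ⟪f ((T ^ n) y), f ((T ^ n) x)⟫_ℂ = ⟪f y, f x⟫_ℂ := by
  induction n using Int.induction_on with
  | zero => intro x y; rfl
  | succ n ih =>
    intro x y
    rw [zpow_add_one]
    change ⟪f ((T ^ (n : ℤ)) (T y)), f ((T ^ (n : ℤ)) (T x))⟫_ℂ = _
    rw [ih, heq, heq, U.inner_map_map]
  | pred n ih =>
    intro x y
    rw [zpow_sub_one]
    change ⟪f ((T ^ (-n : ℤ)) (T.symm y)), f ((T ^ (-n : ℤ)) (T.symm x))⟫_ℂ = _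
    rw [ih, ← U.inner_map_map, ← heq, ← heq, T.apply_symm_apply, T.apply_symm_apply]

lemma eq_of_inner (inj : Function.Injective f) {x y : X}
    (h : ∀ z, ⟪f z, f x⟫_ℂ = ⟪f z, f y⟫_ℂ) : x = y := by
  refine inj (sub_eq_zero.1 ((inner_self_eq_zero (𝕜 := ℂ)).1 ?_))
  rw [inner_sub_left, inner_sub_right, inner_sub_right, h, h]
  ring

lemma cont_of_inner (inj : Function.Injective f) (hc : ∀ v : H, Continuous fun x => ⟪v, f x⟫_ℂ)
    {Z : Type} [TopologicalSpace Z] {g : Z → X} (h : ∀ y, Continuous fun z => ⟪f y, f (g z)⟫_ℂ) :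
    Continuous g := by
  have h1 : Continuous fun (x : X) (y : X) => ⟪f y, f x⟫_ℂ := continuous_pi fun y => hc _
  have h2 : Function.Injective fun (x : X) (y : X) => ⟪f y, f x⟫_ℂ :=
    fun x y hxy => eq_of_inner inj (congrFun hxy)
  rw [(h1.isClosedEmbedding h2).isEmbedding.continuous_iff]
  exact continuous_pi h

lemma cont_left (hc : ∀ v : H, Continuous fun x => ⟪v, f x⟫_ℂ) (v : H) :
    Continuous fun x => ⟪f x, v⟫_ℂ := by
  simpa only [inner_conj_symm] using Complex.continuous_conj.comp' (hc v)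

lemma exists_adj (heq : ∀ x, f (T x) = U (f x)) (hc : ∀ v : H, Continuous fun x => ⟪v, f x⟫_ℂ)
    (p : Ellis T) : ∃ p' : Ellis T, ∀ x y, ⟪f y, f (p.1 x)⟫_ℂ = ⟪f (p'.1 y), f x⟫_ℂ := by
  let A : Set ((X → X) × (X → X)) :=
    {q | q.2 ∈ Ellis T} ∩ ⋂ x, ⋂ y, {q | ⟪f y, f (q.1 x)⟫_ℂ = ⟪f (q.2 y), f x⟫_ℂ}
  have hA : IsClosed A :=
    (isClosed_closure.preimage continuous_snd).inter
      (isClosed_iInter fun x => isClosed_iInter fun y => isClosed_eq
        ((hc _).comp ((continuous_apply x).comp continuous_fst))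
        ((cont_left hc _).comp ((continuous_apply y).comp continuous_snd)))
  obtain ⟨q, ⟨h1, h2⟩, h3⟩ := ellis_ind (hA.isCompact.image continuous_fst).isClosed
    (fun n => ⟨(⇑(T ^ n), ⇑(T ^ (-n))), ⟨pow_mem_ellis _, by
      simp only [Set.mem_iInter, Set.mem_ofPred_eq]
      intro x y
      rw [← inner_pow heq n x ((T ^ (-n)) y)]
      change _ = ⟪f ((T ^ n * T ^ (-n)) y), _⟫_ℂ
      rw [← zpow_add, add_neg_cancel, zpow_zero]
      rfl⟩, rfl⟩) p.2
  simp only [Set.mem_iInter, Set.mem_ofPred_eq] at h2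
  exact ⟨⟨q.2, h1⟩, fun x y => h3 ▸ h2 x y⟩

lemma cont_ellis (inj : Function.Injective f) (heq : ∀ x, f (T x) = U (f x))
    (hc : ∀ v : H, Continuous fun x => ⟪v, f x⟫_ℂ) : ∀ p ∈ Ellis T, Continuous p := fun p hp => by
  obtain ⟨q, hq⟩ := exists_adj heq hc ⟨p, hp⟩
  exact cont_of_inner inj hc fun y => by simpa only [hq] using hc (f (q.1 y))

end Rep

section Trans

variable {x₀ : X} (hx : DenseRange fun n : ℤ => (T ^ n) x₀) (hc : ∀ p ∈ Ellis T, Continuous p)

instance : CompactSpace (Ellis T) := isCompact_iff_compactSpace.1 isClosed_closure.isCompact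

/-- evaluation at a point -/
def ev (T : X ≃ₜ X) (x₀ : X) (p : Ellis T) : X := p.1 x₀

/-- the powers as elements of the enveloping semigroup -/
def pw (T : X ≃ₜ X) (n : ℤ) : Ellis T := ⟨_, pow_mem_ellis n⟩

lemma evc : Continuous (ev T x₀) := (continuous_apply x₀).comp continuous_subtype_val

include hx in
lemma evs : Function.Surjective (ev T x₀) := fun x =>
  hx.induction_on (p := fun x => x ∈ Set.range (ev T x₀)) x (isCompact_range evc).isClosed
    fun n => ⟨pw T n, rfl⟩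

include hx hc in
lemma evi : Function.Injective (ev T x₀) := fun p q h =>
  Subtype.ext (hx.equalizer (hc _ p.2) (hc _ q.2) (funext fun n => by
    simp only [Function.comp_apply]
    rw [comm_pow p.2, comm_pow q.2]
    exact congrArg _ h))

/-- evaluation at a transitive point as a homeomorphism -/
noncomputable def evH : Ellis T ≃ₜ X :=
  evc.homeoOfEquivCompactToT2 (f := Equiv.ofBijective (ev T x₀) ⟨evi hx hc, evs hx⟩)

/-- the metric pulled back by evaluation -/
@[reducible] noncomputable def elMetric : MetricSpace (Ellis T) :=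
  (evc.isClosedEmbedding (evi hx hc)).isEmbedding.comapMetricSpace (ev T x₀)

lemma cond_iff : ((∀ p ∈ Ellis T, ∃ q ∈ Ellis T, p ∘ q ∘ p = p) ∧
      ∀ e ∈ Idem T, ∀ V ∈ 𝓝[Idem T] e, ∃ W ∈ 𝓝[Idem T] e,
        W ⊆ V ∧ ∀ a ∈ W, ∀ b ∈ W, a ∘ b ∈ W) ↔
    letI := elMonoid hc
    letI := elMetric hx hc
    ((∀ p : Ellis T, ∃ q : Ellis T, p * q * p = p) ∧ Law (Ellis T)) := by
  let mon : CommMonoid (Ellis T) := elMonoid hc
  have hmap : ∀ e : Ellis T, map Subtype.val (𝓝[{x : Ellis T | x * x = x}] e) = 𝓝[Idem T] e.1 := by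
    intro e
    rw [IsEmbedding.subtypeVal.map_nhdsWithin_eq]
    congr 1
    ext p
    constructor
    · rintro ⟨q, hq, rfl⟩
      exact ⟨q.2, congrArg Subtype.val hq⟩
    · rintro ⟨h1, h2⟩
      exact ⟨⟨p, h1⟩, Subtype.ext h2, rfl⟩
  symm
  refine and_congr ⟨fun h p hp => ?_, fun h p => ?_⟩ ⟨fun h e he V hV => ?_, fun h e he V hV => ?_⟩
  · obtain ⟨q, hq⟩ := h ⟨p, hp⟩
    exact ⟨q.1, q.2, congrArg Subtype.val hq⟩
  · obtain ⟨q, hq, h2⟩ := h p.1 p.2
    exact ⟨⟨q, hq⟩, Subtype.ext h2⟩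
  · have hV' := hV
    rw [← hmap ⟨e, he.1⟩] at hV' ⊢
    obtain ⟨W, hW, hWV, hcl⟩ := h ⟨e, he.1⟩ (Subtype.ext he.2) _ hV'
    refine ⟨Subtype.val '' W, image_mem_map hW, Set.image_subset_iff.2 hWV, ?_⟩
    rintro _ ⟨a, ha, rfl⟩ _ ⟨b, hb, rfl⟩
    exact ⟨a * b, hcl a ha b hb, rfl⟩
  · obtain ⟨W, hW, hWV, hcl⟩ := h e.1 ⟨e.2, congrArg Subtype.val he⟩ (Subtype.val '' V)
      (hmap e ▸ image_mem_map hV)
    rw [← hmap] at hW
    refine ⟨Subtype.val ⁻¹' W, hW, fun x hx => ?_, fun a ha b hb => hcl _ ha _ hb⟩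
    obtain ⟨y, hy, hxy⟩ := hWV hx
    exact Subtype.ext hxy ▸ hy

lemma ev_pw (s : Ellis T) : letI := elMonoid hc
    ev T x₀ (pw T 1 * s) = T (ev T x₀ s) := by
  change (T ^ (1 : ℤ)) (ev T x₀ s) = _
  rw [zpow_one]

include hx in
lemma exists_ctx {U : H ≃ₗᵢ[ℂ] H} {f : X → H} (inj : Function.Injective f)
    (heq : ∀ x, f (T x) = U (f x)) (hf : ∀ v : H, Continuous fun x => ⟪v, f x⟫_ℂ) :
    letI := elMonoid hc
    letI := elMetric hx hc
    ∃ _ : StarMul (Ellis T), Ctx (pw T 1) := by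
  choose adj hadj using exists_adj heq hf
  have huniq : ∀ p q : Ellis T, (∀ x y, ⟪f y, f (p.1 x)⟫_ℂ = ⟪f (q.1 y), f x⟫_ℂ) → adj p = q :=
    fun p q h => Subtype.ext (funext fun y => eq_of_inner inj fun z => by
      rw [← inner_conj_symm, ← hadj, h, inner_conj_symm])
  let mon : CommMonoid (Ellis T) := elMonoid hc
  let met : MetricSpace (Ellis T) := elMetric hx hc
  let st : StarMul (Ellis T) :=
    { star := adj
      star_involutive := fun p => huniq _ _ fun x y => by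
        rw [← inner_conj_symm, ← hadj, inner_conj_symm]
      star_mul := fun p q => huniq _ _ fun x y => by
        change ⟪f y, f (p.1 (q.1 x))⟫_ℂ = ⟪f ((adj q).1 ((adj p).1 y)), f x⟫_ℂ
        rw [hadj, hadj] }
  have hP : ∀ m n, pw T m * pw T n = pw T (m + n) := fun m n => Subtype.ext (by
    change ⇑(T ^ m * T ^ n) = ⇑(T ^ (m + n))
    rw [zpow_add])
  have hstar : star (pw T 1) = pw T (-1) := huniq _ _ fun x y => by
    rw [← inner_pow heq 1 x ((pw T (-1)).1 y)]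
    change _ = ⟪f ((pw T 1 * pw T (-1)).1 y), _⟫_ℂ
    rw [hP]
    rfl
  exact ⟨st,
    { unit := by rw [hstar, hP]; rfl
      ind := fun C hC h1 hu hs s => by
        have hall : ∀ n, pw T n ∈ C := fun n => by
          induction n using Int.induction_on with
          | zero => exact h1
          | succ n ih => rw [add_comm, ← hP]; exact hu _ ih
          | pred n ih => rw [sub_eq_neg_add, ← hP, ← hstar]; exact hs _ ih
        obtain ⟨t, ht, hts⟩ := ellis_ind (C := Subtype.val '' C)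
          (hC.isCompact.image continuous_subtype_val).isClosed
          (fun n => ⟨pw T n, hall n, rfl⟩) s.2
        exact Subtype.ext hts ▸ ht
      cmul := fun a => Continuous.subtype_mk (continuous_pi fun x =>
        (hc _ a.2).comp ((continuous_apply x).comp continuous_subtype_val)) _
      cstar := Continuous.subtype_mk (continuous_pi fun y => cont_of_inner inj hf fun x => by
        have e : (fun p : Ellis T => ⟪f x, f ((adj p).1 y)⟫_ℂ) =
            fun p : Ellis T => conj ⟪f y, f (p.1 x)⟫_ℂ := by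
          funext p
          rw [hadj p x y, inner_conj_symm]
        exact e ▸ Complex.continuous_conj.comp
          ((hf _).comp ((continuous_apply x).comp continuous_subtype_val))) _ }⟩

end Trans

theorem neg_main {x₀ : X} (hx : DenseRange fun n : ℤ => (T ^ n) x₀)
    (hall : ∀ (Y : Type) [MetricSpace Y] [CompactSpace Y] (S : Y ≃ₜ Y) (π : X → Y),
      Continuous π → Function.Surjective π → (∀ x, π (T x) = S (π x)) → HilbRep S) :
    (∀ p ∈ Ellis T, ∃ q ∈ Ellis T, p ∘ q ∘ p = p) ∧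
      ∀ e ∈ Idem T, ∀ V ∈ 𝓝[Idem T] e, ∃ W ∈ 𝓝[Idem T] e,
        W ⊆ V ∧ ∀ a ∈ W, ∀ b ∈ W, a ∘ b ∈ W := by
  obtain ⟨H, _, _, _, U, f, inj, heq, hf⟩ :=
    hall X T id continuous_id Function.surjective_id fun _ => rfl
  have hc := cont_ellis inj heq hf
  let mon : CommMonoid (Ellis T) := elMonoid hc
  let met : MetricSpace (Ellis T) := elMetric hx hc
  obtain ⟨st, ctx⟩ := exists_ctx hx hc inj heq hf
  refine (cond_iff hx hc).2 (neg_abs ctx fun Y _ _ S π hπ hs he => ?_)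
  refine hall Y S (π ∘ (evH hx hc).symm) (hπ.comp (evH hx hc).symm.continuous)
    (hs.comp (evH hx hc).symm.surjective) fun x => ?_
  obtain ⟨s, rfl⟩ := evs hx x
  have e : ∀ t, (evH hx hc).symm (ev T x₀ t) = t := (evH hx hc).symm_apply_apply
  simp only [Function.comp_apply]
  rw [← ev_pw hc, e, e, he]

variable {Y : Type} [MetricSpace Y] [CompactSpace Y] {S : Y ≃ₜ Y} {π : X → Y}

lemma equiv_pow {X Y : Type} [TopologicalSpace X] [TopologicalSpace Y] {T : X ≃ₜ X} {S : Y ≃ₜ Y}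
    {π : X → Y} (he : ∀ x, π (T x) = S (π x)) (n : ℤ) : ∀ x, π ((T ^ n) x) = (S ^ n) (π x) := by
  induction n using Int.induction_on with
  | zero => intro x; rfl
  | succ n ih =>
    intro x
    rw [zpow_add_one, zpow_add_one]
    change π ((T ^ (n : ℤ)) (T x)) = (S ^ (n : ℤ)) (S (π x))
    rw [ih, he]
  | pred n ih =>
    intro x
    rw [zpow_sub_one, zpow_sub_one]
    change π ((T ^ (-n : ℤ)) (T.symm x)) = (S ^ (-n : ℤ)) (S.symm (π x))
    rw [ih, S.eq_symm_apply.2 (he (T.symm x)).symm, T.apply_symm_apply]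

lemma cont_factor (hc : ∀ p ∈ Ellis T, Continuous p) (hπ : Continuous π)
    (hs : Function.Surjective π) (he : ∀ x, π (T x) = S (π x)) :
    ∀ q ∈ Ellis S, Continuous q := by
  intro q hq
  let A : Set ((Y → Y) × (X → X)) := {r | r.2 ∈ Ellis T} ∩ ⋂ x, {r | r.1 (π x) = π (r.2 x)}
  have hA : IsClosed A :=
    (isClosed_closure.preimage continuous_snd).inter
      (isClosed_iInter fun x => isClosed_eq ((continuous_apply _).comp continuous_fst)
        (hπ.comp ((continuous_apply x).comp continuous_snd)))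
  obtain ⟨r, ⟨h1, h2⟩, rfl⟩ := ellis_ind (hA.isCompact.image continuous_fst).isClosed
    (fun n => ⟨(⇑(S ^ n), ⇑(T ^ n)),
      ⟨pow_mem_ellis _, Set.mem_iInter.2 fun x => (equiv_pow he n x).symm⟩, rfl⟩) hq
  rw [(hπ.isClosedMap.isQuotientMap hπ hs).continuous_iff]
  have e : r.1 ∘ π = π ∘ r.2 := funext (Set.mem_iInter.1 h2)
  rw [e]
  exact hπ.comp (hc _ h1)

theorem pos_trans {x₀ : X} (hx : DenseRange fun n : ℤ => (T ^ n) x₀) (hT : HilbRep T)
    (hπ : Continuous π) (hs : Function.Surjective π) (he : ∀ x, π (T x) = S (π x))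
    (hy : DenseRange fun n : ℤ => (S ^ n) (π x₀))
    (h : (∀ p ∈ Ellis S, ∃ q ∈ Ellis S, p ∘ q ∘ p = p) ∧
      ∀ e ∈ Idem S, ∀ V ∈ 𝓝[Idem S] e, ∃ W ∈ 𝓝[Idem S] e,
        W ⊆ V ∧ ∀ a ∈ W, ∀ b ∈ W, a ∘ b ∈ W)
    (Z : Type) [MetricSpace Z] (R : Z ≃ₜ Z) (ρ : Y → Z) (hρ : Continuous ρ)
    (hρs : Function.Surjective ρ) (hρe : ∀ y, ρ (S y) = R (ρ y)) : HilbRep R := by
  obtain ⟨H, _, _, _, U, f, inj, heq, hf⟩ := hT
  have hc := cont_ellis inj heq hf
  have hc' := cont_factor hc hπ hs he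
  let mon : CommMonoid (Ellis T) := elMonoid hc
  let met : MetricSpace (Ellis T) := elMetric hx hc
  let mon' : CommMonoid (Ellis S) := elMonoid hc'
  let met' : MetricSpace (Ellis S) := elMetric hy hc'
  obtain ⟨st, ctx⟩ := exists_ctx hx hc inj heq hf
  obtain ⟨h1, h2⟩ := (cond_iff hy hc').1 h
  have e : ∀ y, ev S (π x₀) ((evH hy hc').symm y) = y := (evH hy hc').apply_symm_apply
  have cQ : ∀ a : Ellis S, Continuous fun q : Ellis S =>
      (⟨q.1 ∘ a.1, comp_mem_ellis q.2 a.2⟩ : Ellis S) := fun a =>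
    Continuous.subtype_mk (continuous_pi fun y => evc (x₀ := a.1 y)) _
  exact pos_abs ctx U (fun s => f (ev T x₀ s)) (inj.comp (evi hx hc))
    (fun s => by rw [ev_pw hc, heq]) (fun v => (hf v).comp evc) (pw S 1)
    (fun s => (evH hy hc').symm (π (ev T x₀ s)))
    cQ ((evH hy hc').symm.continuous.comp (hπ.comp evc))
    ((evH hy hc').symm.surjective.comp (hs.comp (evs hx)))
    (evi hy hc' (e _)) (fun s => evi hy hc' (by rw [ev_pw hc', e, e, ev_pw hc, he])) h1 h2
    R (fun q => ρ (ev S (π x₀) q)) (hρ.comp evc) (hρs.comp (evs hy))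
    fun q => by rw [ev_pw hc', hρe]

theorem pos_main (hT : HilbRep T) (hπ : Continuous π) (hs : Function.Surjective π)
    (he : ∀ x, π (T x) = S (π x)) {y₀ : Y} (hy : DenseRange fun n : ℤ => (S ^ n) y₀)
    (h : (∀ p ∈ Ellis S, ∃ q ∈ Ellis S, p ∘ q ∘ p = p) ∧
      ∀ e ∈ Idem S, ∀ V ∈ 𝓝[Idem S] e, ∃ W ∈ 𝓝[Idem S] e,
        W ⊆ V ∧ ∀ a ∈ W, ∀ b ∈ W, a ∘ b ∈ W)
    (Z : Type) [MetricSpace Z] (R : Z ≃ₜ Z) (ρ : Y → Z) (hρ : Continuous ρ)
    (hρs : Function.Surjective ρ) (hρe : ∀ y, ρ (S y) = R (ρ y)) : HilbRep R := by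
  obtain ⟨x₀, rfl⟩ := hs y₀
  let O : Set X := closure (Set.range fun n : ℤ => (T ^ n) x₀)
  have hO : ∀ k : ℤ, ∀ x ∈ O, (T ^ k) x ∈ O := fun k x hx =>
    map_mem_closure (T ^ k).continuous hx (by
      rintro _ ⟨n, rfl⟩
      refine ⟨k + n, ?_⟩
      simp only [zpow_add]
      rfl)
  have : CompactSpace O := isCompact_iff_compactSpace.1 isClosed_closure.isCompact
  let T' : O ≃ₜ O := T.subtype fun x => ⟨fun hx => by simpa using hO 1 x hx, fun hx => by
    have h1 := hO (-1) _ hx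
    rw [zpow_neg_one] at h1
    exact T.symm_apply_apply x ▸ h1⟩
  have hv : ∀ (n : ℤ) (x : O), ((T' ^ n) x).1 = (T ^ n) x.1 :=
    equiv_pow (π := Subtype.val) fun _ => rfl
  let x₁ : O := ⟨x₀, subset_closure ⟨0, rfl⟩⟩
  have hx : DenseRange fun n : ℤ => (T' ^ n) x₁ := by
    rw [DenseRange, Subtype.dense_iff, ← Set.range_comp]
    exact closure_mono (Set.range_subset_iff.2 fun n => ⟨n, hv n x₁⟩)
  obtain ⟨H, i1, i2, i3, U, f, inj, heq, hf⟩ := hT
  have hπ' : Continuous fun x : O => π x.1 := hπ.comp continuous_subtype_val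
  exact pos_trans hx ⟨H, i1, i2, i3, U, fun x => f x.1, inj.comp Subtype.val_injective,
    fun x => heq x.1, fun v => (hf v).comp continuous_subtype_val⟩ hπ'
    (fun y => hy.induction_on (p := fun y => y ∈ Set.range fun x : O => π x.1) y
      (isCompact_range hπ').isClosed fun n => ⟨(T' ^ n) x₁, by
        simp only [hv]
        exact equiv_pow he n x₀⟩)
    (fun x => he x.1) hy h Z R ρ hρ hρs hρe

end Pool.Agent.MP_5139aa_an.Cl
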